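import Mathlib

/-!
Definitions for the problem on finitely strictly singular operators and the ideal generated by `K`
(real scalars).
-/

namespace Q261.FS

open scoped ENNReal Topology
open Filter

/-- The `c₀`-sum of a family of normed spaces: the sequences in the `ℓ_∞`-sum whose norms tend to
zero (along the cofinite filter; for index set `ℕ` this is the usual convergence to zero). -/
def c0Sum {ι : Type} (E : ι → Type) [∀ i, NormedAddCommGroup (E i)] [∀ i, NormedSpace ℝ (E i)] :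
    Submodule ℝ (lp E ∞) where
  carrier := {x | Tendsto (fun i => ‖x i‖) cofinite (𝓝 0)}
  zero_mem' := by
    show Tendsto (fun i => ‖(0 : lp E ∞) i‖) cofinite (𝓝 0)
    simpa using (tendsto_const_nhds : Tendsto (fun _ : ι => (0 : ℝ)) cofinite (𝓝 0))
  add_mem' := by
    intro a b ha hb
    have h : Tendsto (fun i => ‖a i‖ + ‖b i‖) cofinite (𝓝 0) := by
      have := Tendsto.add ha hb
      simpa using this
    refine squeeze_zero (fun _ => norm_nonneg _) (fun i => ?_) h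
    rw [lp.coeFn_add]
    exact norm_add_le _ _
  smul_mem' := by
    intro c a ha
    have h : Tendsto (fun i => ‖c‖ * ‖a i‖) cofinite (𝓝 0) := by
      have := Tendsto.const_mul ‖c‖ ha
      simpa using this
    refine squeeze_zero (fun _ => norm_nonneg _) (fun i => ?_) h
    rw [lp.coeFn_smul]
    exact (norm_smul_le _ _)

/-- `c₀` -/
abbrev c0 : Type := c0Sum (fun _ : ℕ => ℝ)

/-- `ℓ_p` (real, indexed by `ℕ`) -/
abbrev ellp (p : ℝ≥0∞) : Type := lp (fun _ : ℕ => ℝ) p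

/-- the domain `(⊕_{n ≥ 1} ℓ_2^n)_{ℓ_p}` of `K`; the summand with index `n : ℕ` is `ℓ_2^{n+1}` -/
abbrev domK (p : ℝ≥0∞) : Type := lp (fun n : ℕ => EuclideanSpace ℝ (Fin (n + 1))) p

/-- the codomain `(⊕_{n ≥ 1} ℓ_∞^{k_n})_{c₀}` of `K` -/
abbrev codK (k : ℕ → ℕ) : Type := c0Sum (fun n : ℕ => Fin (k n) → ℝ)

/-- `T` is finitely strictly singular: for every `ε > 0` there is `n` such that every subspace of
dimension at least `n` contains `x ≠ 0` with `‖T x‖ < ε ‖x‖`. -/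
def FinStrictlySingular {X Y : Type} [NormedAddCommGroup X] [NormedSpace ℝ X]
    [NormedAddCommGroup Y] [NormedSpace ℝ Y] (T : X →L[ℝ] Y) : Prop :=
  ∀ ε : ℝ, 0 < ε → ∃ n : ℕ, ∀ E : Submodule ℝ X, (n : Cardinal) ≤ Module.rank ℝ E →
    ∃ x ∈ E, x ≠ 0 ∧ ‖T x‖ < ε * ‖x‖

/-- `𝒥^K(X, Y)`: the norm closure of the set of finite sums `∑ A_i K B_i`. -/
def idealGen {V W : Type} [NormedAddCommGroup V] [NormedSpace ℝ V]
    [NormedAddCommGroup W] [NormedSpace ℝ W] (K : V →L[ℝ] W) (X Y : Type)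
    [NormedAddCommGroup X] [NormedSpace ℝ X] [NormedAddCommGroup Y] [NormedSpace ℝ Y] :
    Set (X →L[ℝ] Y) :=
  closure {S | ∃ (n : ℕ) (A : Fin n → W →L[ℝ] Y) (B : Fin n → X →L[ℝ] V),
    S = ∑ i, (A i).comp (K.comp (B i))}

/-- `K` is an admissible diagonal operator: `K = diag (K_n)` with linear maps
`K_n : ℓ_2^n → ℓ_∞^{k_n}`, `‖x‖ ≤ ‖K_n x‖ ≤ 2 ‖x‖`. -/
def IsDiagK {p : ℝ≥0∞} [Fact (1 ≤ p)] {k : ℕ → ℕ} (K : domK p →L[ℝ] codK k) : Prop :=
  ∃ Kn : ∀ n : ℕ, EuclideanSpace ℝ (Fin (n + 1)) →ₗ[ℝ] (Fin (k n) → ℝ),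
    (∀ n x, ‖x‖ ≤ ‖Kn n x‖ ∧ ‖Kn n x‖ ≤ 2 * ‖x‖) ∧
    ∀ (x : domK p) (n : ℕ), (K x : lp (fun n : ℕ => Fin (k n) → ℝ) ∞) n = Kn n (x n)

end Q261.FS
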