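import Pool.Agent.Helper799.DvRogers

namespace Q261.FS

open Pool.Helper799.Te

/-- Dvoretzky–Rogers families inside a subspace -/
theorem exists_dr_sub {X : Type} [NormedAddCommGroup X] [NormedSpace ℝ X] (E : Submodule ℝ X)
    (m : ℕ) (hE : ((2 * m : ℕ) : Cardinal) ≤ Module.rank ℝ E) :
    ∃ u : Fin m → X, (∀ i, u i ∈ E) ∧ Bes ℝ u ∧ ∀ i, 1 / 3 ≤ ‖u i‖ := by
  classical
  obtain ⟨G, hGfin, hG⟩ : ∃ G : Submodule ℝ E, FiniteDimensional ℝ G ∧ Module.finrank ℝ G = 2 * m := by
    obtain ⟨s, hs1, hs2⟩ := exists_finset_linearIndependent_of_le_rank hE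
    refine ⟨Submodule.span ℝ (s : Set E), FiniteDimensional.span_finset ℝ s, ?_⟩
    have := finrank_span_finset_eq_card hs2
    rw [this, hs1]
  have hF : Module.finrank ℝ (EuclideanSpace ℝ (Fin (2 * m))) = 2 * m := finrank_euclideanSpace_fin
  obtain ⟨U, hU1, hU2⟩ := exists_U (𝕜 := ℝ) (F := EuclideanSpace ℝ (Fin (2 * m))) (E := G)
    (by rw [hF, hG])
  obtain ⟨b, hb⟩ := dr_basis m U hU1 hU2 hF m le_rfl
  refine ⟨fun i => ((U (b (Fin.castLE (by omega) i)) : G) : E), fun i => Subtype.property _, ?_, ?_⟩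
  · intro a
    have h1 : ∑ i : Fin m, a i • (((U (b (Fin.castLE (by omega) i)) : G) : E) : X) =
        (((U (∑ i : Fin m, a i • b (Fin.castLE (by omega) i)) : G) : E) : X) := by
      rw [map_sum]
      simp only [map_smul]
      rw [Submodule.coe_sum, Submodule.coe_sum]
      rfl
    rw [h1]
    have h2 := hU1 (∑ i : Fin m, a i • b (Fin.castLE (by omega) i))
    refine (le_of_eq rfl).trans (h2.trans (le_of_eq ?_))
    have h3 := norm_sq_comb (𝕜 := ℝ) (fun i : Fin m => b (Fin.castLE (by omega : m ≤ 2 * m) i))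
      (b.orthonormal.comp _ (Fin.castLE_injective (by omega : m ≤ 2 * m))) a
    rw [← h3, Real.sqrt_sq (norm_nonneg _)]
  · intro i
    have := hb (Fin.castLE (by omega) i) (by simp)
    exact this

end Q261.FS
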