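import Pool.Agent.Q261.FS.Defs

namespace Q261.FS

open scoped ENNReal Topology RealInnerProductSpace
open Filter

/-- Euclidean spaces embed into `ℓ_∞^k` with distortion 2 -/
lemma exists_Kn (n : ℕ) : ∃ (k : ℕ) (L : EuclideanSpace ℝ (Fin (n + 1)) →ₗ[ℝ] (Fin k → ℝ)),
    ∀ x, ‖x‖ ≤ ‖L x‖ ∧ ‖L x‖ ≤ 2 * ‖x‖ := by
  have hcomp : IsCompact (Metric.sphere (0 : EuclideanSpace ℝ (Fin (n + 1))) 1) := isCompact_sphere _ _
  obtain ⟨t, ht1, ht2, ht3⟩ := hcomp.finite_cover_balls (e := 1 / 2) (by norm_num)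
  let e : Fin ht2.toFinset.card ≃ ht2.toFinset := ht2.toFinset.equivFin.symm
  let L : EuclideanSpace ℝ (Fin (n + 1)) →ₗ[ℝ] (Fin ht2.toFinset.card → ℝ) :=
    LinearMap.pi fun i => (2 : ℝ) • (innerₛₗ ℝ ((e i : EuclideanSpace ℝ (Fin (n + 1)))))
  have hL : ∀ x i, L x i = 2 * ⟪((e i : EuclideanSpace ℝ (Fin (n + 1)))), x⟫ := fun x i => rfl
  have hmem : ∀ i, ‖((e i : EuclideanSpace ℝ (Fin (n + 1))))‖ = 1 := by
    intro i
    have h1 : ((e i : EuclideanSpace ℝ (Fin (n + 1)))) ∈ t := by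
      have := (e i).2
      rwa [Set.Finite.mem_toFinset] at this
    have h2 := ht1 h1
    simpa using h2
  refine ⟨_, L, fun x => ⟨?_, ?_⟩⟩
  · rcases eq_or_ne x 0 with rfl | hx
    · simp
    have hx0 : 0 < ‖x‖ := norm_pos_iff.2 hx
    have hy : (‖x‖⁻¹ • x) ∈ Metric.sphere (0 : EuclideanSpace ℝ (Fin (n + 1))) 1 := by
      rw [mem_sphere_zero_iff_norm, norm_smul, norm_inv, norm_norm, inv_mul_cancel₀ hx0.ne']
    obtain ⟨z, hz, hz2⟩ := Set.mem_iUnion₂.1 (ht3 hy)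
    obtain ⟨i, hi⟩ := e.surjective ⟨z, by rwa [Set.Finite.mem_toFinset]⟩
    have hi' : ((e i : EuclideanSpace ℝ (Fin (n + 1)))) = z := by rw [hi]
    have h3 : ‖‖x‖⁻¹ • x - z‖ < 1 / 2 := by
      rw [← dist_eq_norm]; exact Metric.mem_ball.1 hz2
    have hz1 : ‖z‖ = 1 := by rw [← hi']; exact hmem i
    -- `⟪z, y⟫ ≥ 1/2`
    have h4 : (1 : ℝ) / 2 ≤ ⟪z, ‖x‖⁻¹ • x⟫ := by
      have e1 : ⟪z, ‖x‖⁻¹ • x⟫ = ⟪z, z⟫ + ⟪z, ‖x‖⁻¹ • x - z⟫ := by
        rw [← inner_add_right]; congr 1; abel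
      have e2 : |⟪z, ‖x‖⁻¹ • x - z⟫| ≤ ‖z‖ * ‖‖x‖⁻¹ • x - z‖ := abs_real_inner_le_norm _ _
      rw [e1, real_inner_self_eq_norm_sq, hz1]
      rw [hz1, one_mul] at e2
      have e3 := neg_abs_le ⟪z, ‖x‖⁻¹ • x - z⟫
      linarith
    rw [real_inner_smul_right] at h4
    have h5 : ‖x‖ / 2 ≤ ⟪z, x⟫ := by
      have := mul_le_mul_of_nonneg_left h4 hx0.le
      rw [← mul_assoc, mul_inv_cancel₀ hx0.ne', one_mul] at this
      linarith
    calc ‖x‖ ≤ 2 * ⟪z, x⟫ := by linarith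
      _ = L x i := by rw [hL, hi']
      _ ≤ ‖L x i‖ := Real.le_norm_self _
      _ ≤ ‖L x‖ := norm_le_pi_norm _ _
  · rw [pi_norm_le_iff_of_nonneg (by positivity)]
    intro i
    rw [hL, norm_mul, Real.norm_eq_abs, Real.norm_eq_abs, abs_two]
    have := abs_real_inner_le_norm ((e i : EuclideanSpace ℝ (Fin (n + 1)))) x
    rw [hmem, one_mul] at this
    linarith

/-- admissible diagonal operators exist -/
theorem exists_diagK {p : ℝ≥0∞} [Fact (1 ≤ p)] (hp : 0 < p.toReal) :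
    ∃ (k : ℕ → ℕ) (K : domK p →L[ℝ] codK k), IsDiagK K := by
  choose k L hL using exists_Kn
  have hp0 : p ≠ 0 := by rintro rfl; simp at hp
  have hbd : ∀ (x : domK p) n, ‖L n (x n)‖ ≤ 2 * ‖x‖ := by
    intro x n
    have h1 := (hL n (x n)).2
    have h2 := lp.norm_apply_le_norm hp0 x n
    linarith
  have htend : ∀ x : domK p, Tendsto (fun n => ‖L n (x n)‖) cofinite (𝓝 0) := by
    intro x
    have hsum : Summable (fun i => ‖x i‖ ^ p.toReal) := (lp.memℓp x).summable hp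
    have h1 := hsum.tendsto_cofinite_zero
    have h2 : Tendsto (fun i => (‖x i‖ ^ p.toReal) ^ (1 / p.toReal)) cofinite (𝓝 0) := by
      have := h1.rpow_const (p := 1 / p.toReal) (Or.inr (by positivity))
      rwa [Real.zero_rpow (by positivity)] at this
    have h3 : ∀ i, (‖x i‖ ^ p.toReal) ^ (1 / p.toReal) = ‖x i‖ := by
      intro i
      rw [← Real.rpow_mul (norm_nonneg _), mul_one_div_cancel hp.ne', Real.rpow_one]
    simp only [h3] at h2
    have h4 : Tendsto (fun i => 2 * ‖x i‖) cofinite (𝓝 0) := by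
      have := h2.const_mul 2
      simpa using this
    exact squeeze_zero (fun _ => norm_nonneg _) (fun i => (hL i _).2) h4
  let K : domK p →L[ℝ] codK k :=
    LinearMap.mkContinuous
      { toFun := fun x => ⟨⟨fun n => L n (x n), memℓp_infty ⟨2 * ‖x‖, by
            rintro _ ⟨n, rfl⟩
            exact hbd x n⟩⟩, htend x⟩
        map_add' := by
          intro x y
          apply Subtype.ext
          apply lp.ext
          funext n
          show L n ((x + y : domK p) n) = L n (x n) + L n (y n)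
          rw [lp.coeFn_add, Pi.add_apply, map_add]
        map_smul' := by
          intro c x
          apply Subtype.ext
          apply lp.ext
          funext n
          show L n ((c • x : domK p) n) = c • L n (x n)
          rw [lp.coeFn_smul, Pi.smul_apply, map_smul] } 2 (by
      intro x
      show ‖(⟨fun n => L n (x n), _⟩ : lp (fun n : ℕ => Fin (k n) → ℝ) ∞)‖ ≤ 2 * ‖x‖
      apply lp.norm_le_of_forall_le (by positivity)
      intro n
      exact hbd x n)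
  exact ⟨k, K, L, hL, fun x n => rfl⟩

end Q261.FS
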