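import Mathlib
import Pool.Agent.Helper799.Khin

namespace Q261.FS

open Finset
open Pool.Agent.Helper799.Khin (sg khintchine sum_insert_not_mem sum_insert_mem)

section
variable {ι : Type*} [DecidableEq ι]

lemma sum_cosh (T : Finset ι) (a : ι → ℝ) :
    ∑ s ∈ T.powerset, Real.cosh (∑ i ∈ T, sg s i * a i) = 2 ^ T.card * ∏ i ∈ T, Real.cosh (a i) := by
  induction T using Finset.induction_on with
  | empty => simp
  | insert j T hj ih =>
    rw [Finset.sum_powerset_insert hj, Finset.card_insert_of_notMem hj, Finset.prod_insert hj]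
    have h1 : ∑ t ∈ T.powerset, Real.cosh (∑ i ∈ insert j T, sg t i * a i)
        = ∑ t ∈ T.powerset, Real.cosh ((∑ i ∈ T, sg t i * a i) - a j) :=
      Finset.sum_congr rfl fun t ht => by rw [sum_insert_not_mem hj (Finset.mem_powerset.1 ht)]
    have h2 : ∑ t ∈ T.powerset, Real.cosh (∑ i ∈ insert j T, sg (insert j t) i * a i)
        = ∑ t ∈ T.powerset, Real.cosh ((∑ i ∈ T, sg t i * a i) + a j) :=
      Finset.sum_congr rfl fun t ht => by rw [sum_insert_mem hj (Finset.mem_powerset.1 ht)]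
    rw [h1, h2, ← Finset.sum_add_distrib]
    have h3 : ∀ t ∈ T.powerset, Real.cosh ((∑ i ∈ T, sg t i * a i) - a j)
        + Real.cosh ((∑ i ∈ T, sg t i * a i) + a j)
        = 2 * Real.cosh (a j) * Real.cosh (∑ i ∈ T, sg t i * a i) := fun t _ => by
      rw [Real.cosh_add, Real.cosh_sub]; ring
    rw [Finset.sum_congr rfl h3, ← Finset.mul_sum, ih]
    ring

lemma sum_cosh_le (T : Finset ι) (a : ι → ℝ) (ha : ∑ i ∈ T, a i ^ 2 ≤ 1) :
    ∑ s ∈ T.powerset, Real.cosh (∑ i ∈ T, sg s i * a i) ≤ 2 ^ T.card * Real.exp (1 / 2) := by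
  rw [sum_cosh]
  gcongr
  calc ∏ i ∈ T, Real.cosh (a i) ≤ ∏ i ∈ T, Real.exp (a i ^ 2 / 2) := by
        apply Finset.prod_le_prod
        · intro i _; exact (Real.cosh_pos _).le
        · intro i _; exact Real.cosh_le_exp_half_sq _
    _ = Real.exp (∑ i ∈ T, a i ^ 2 / 2) := (Real.exp_sum _ _).symm
    _ ≤ Real.exp (1 / 2) := by
        apply Real.exp_le_exp.2
        rw [← Finset.sum_div]
        linarith

/-- Khintchine in `L_P`, `P ≥ 1` -/
lemma khin_rpow {P : ℝ} (hP : 1 ≤ P) (T : Finset ι) (a : ι → ℝ) :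
    2 ^ T.card * ((9 / 16) ^ P * (∑ i ∈ T, a i ^ 2) ^ (P / 2)) ≤
      ∑ s ∈ T.powerset, |∑ i ∈ T, sg s i * a i| ^ P := by
  have h1 := khintchine T a
  have h2 := Real.rpow_sum_le_const_mul_sum_rpow (s := T.powerset)
    (fun s => ∑ i ∈ T, sg s i * a i) hP
  rw [Finset.card_powerset] at h2
  push_cast at h2
  have hs : 0 ≤ ∑ i ∈ T, a i ^ 2 := Finset.sum_nonneg fun i _ => sq_nonneg _
  have hP0 : 0 < P := by linarith
  have h3 : ((9 / 16) * (2 ^ T.card * Real.sqrt (∑ i ∈ T, a i ^ 2))) ^ P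
      ≤ (∑ s ∈ T.powerset, |∑ i ∈ T, sg s i * a i|) ^ P :=
    Real.rpow_le_rpow (by positivity) h1 hP0.le
  have h4 := h3.trans h2
  rw [Real.mul_rpow (by norm_num) (by positivity), Real.mul_rpow (by positivity) (by positivity)] at h4
  have h5 : Real.sqrt (∑ i ∈ T, a i ^ 2) ^ P = (∑ i ∈ T, a i ^ 2) ^ (P / 2) := by
    rw [Real.sqrt_eq_rpow, ← Real.rpow_mul hs]; congr 1; ring
  rw [h5] at h4
  have h6 : ((2 : ℝ) ^ T.card) ^ P = ((2 : ℝ) ^ T.card) ^ (P - 1) * 2 ^ T.card := by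
    rw [Real.rpow_sub (by positivity), Real.rpow_one]; field_simp
  rw [h6] at h4
  have h7 : 0 < ((2 : ℝ) ^ T.card) ^ (P - 1) := by positivity
  have h8 : ((2 : ℝ) ^ T.card) ^ (P - 1) *
      (2 ^ T.card * ((9 / 16) ^ P * (∑ i ∈ T, a i ^ 2) ^ (P / 2))) ≤
      ((2 : ℝ) ^ T.card) ^ (P - 1) * ∑ s ∈ T.powerset, |∑ i ∈ T, sg s i * a i| ^ P := by
    refine le_trans (le_of_eq ?_) h4
    ring
  exact le_of_mul_le_mul_left h8 h7

/-- comparison of the `ℓ_2` and `ℓ_P` norms in dimension `m` -/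
lemma l2_ge {P : ℝ} (hP : 1 ≤ P) (T : Finset ι) (hT : T.Nonempty) (a : ι → ℝ) :
    (T.card : ℝ) ^ (min 1 (P / 2) - 1) * ∑ i ∈ T, |a i| ^ P ≤ (∑ i ∈ T, a i ^ 2) ^ (P / 2) := by
  have hs : 0 ≤ ∑ i ∈ T, a i ^ 2 := Finset.sum_nonneg fun i _ => sq_nonneg _
  have hm : (0 : ℝ) < T.card := by exact_mod_cast hT.card_pos
  rcases le_or_gt 2 P with h | h
  · have e1 : min 1 (P / 2) = 1 := min_eq_left (by linarith)
    rw [e1, sub_self, Real.rpow_zero, one_mul]
    have h1 : ∀ i ∈ T, |a i| ^ P ≤ a i ^ 2 * (∑ i ∈ T, a i ^ 2) ^ (P / 2 - 1) := by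
      intro i hi
      rcases eq_or_ne (a i) 0 with h0 | h0
      · rw [h0, abs_zero, Real.zero_rpow (by linarith)]
        have : 0 ≤ (∑ i ∈ T, a i ^ 2) ^ (P / 2 - 1) := Real.rpow_nonneg hs _
        positivity
      have h2 : |a i| ^ P = a i ^ 2 * (a i ^ 2) ^ (P / 2 - 1) := by
        have e : a i ^ 2 = |a i| ^ (2 : ℝ) := by rw [Real.rpow_two, sq_abs]
        rw [e, ← Real.rpow_mul (abs_nonneg _), ← Real.rpow_add (abs_pos.2 h0)]
        congr 1; ring
      rw [h2]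
      have h3 : a i ^ 2 ≤ ∑ i ∈ T, a i ^ 2 :=
        Finset.single_le_sum (f := fun i => a i ^ 2) (fun i _ => sq_nonneg _) hi
      have h4 : 0 ≤ P / 2 - 1 := by linarith
      gcongr
    refine (Finset.sum_le_sum h1).trans ?_
    rw [← Finset.sum_mul]
    rcases hs.eq_or_lt with h0 | h0
    · rw [← h0, zero_mul]; positivity
    · apply le_of_eq
      nth_rewrite 1 [← Real.rpow_one (∑ i ∈ T, a i ^ 2)]
      rw [← Real.rpow_add h0]
      congr 1; ring
  · have e1 : min 1 (P / 2) = P / 2 := min_eq_right (by linarith)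
    rw [e1]
    have hP0 : 0 < P := by linarith
    have h1 := Real.rpow_sum_le_const_mul_sum_rpow (s := T) (fun i => |a i| ^ P)
      (show 1 ≤ 2 / P by rw [le_div_iff₀ hP0]; linarith)
    simp only [abs_of_nonneg (Real.rpow_nonneg (abs_nonneg (a _)) P)] at h1
    have h2 : ∀ i ∈ T, (|a i| ^ P) ^ (2 / P) = a i ^ 2 := by
      intro i _
      rw [← Real.rpow_mul (abs_nonneg _), mul_div_cancel₀ _ hP0.ne', Real.rpow_two, sq_abs]
    rw [Finset.sum_congr rfl h2] at h1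
    have h0 : 0 ≤ ∑ i ∈ T, |a i| ^ P := Finset.sum_nonneg fun i _ => Real.rpow_nonneg (abs_nonneg _) _
    have h3 : ((∑ i ∈ T, |a i| ^ P) ^ (2 / P)) ^ (P / 2) ≤
        ((T.card : ℝ) ^ (2 / P - 1) * ∑ i ∈ T, a i ^ 2) ^ (P / 2) :=
      Real.rpow_le_rpow (Real.rpow_nonneg h0 _) h1 (by positivity)
    rw [← Real.rpow_mul h0, Real.mul_rpow (by positivity) hs, ← Real.rpow_mul hm.le] at h3
    have e2 : 2 / P * (P / 2) = 1 := by field_simp
    have e3 : (2 / P - 1) * (P / 2) = 1 - P / 2 := by field_simp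
    rw [e2, e3, Real.rpow_one] at h3
    calc (T.card : ℝ) ^ (P / 2 - 1) * ∑ i ∈ T, |a i| ^ P
        ≤ (T.card : ℝ) ^ (P / 2 - 1) * ((T.card : ℝ) ^ (1 - P / 2) * (∑ i ∈ T, a i ^ 2) ^ (P / 2)) := by
          gcongr
      _ = ((T.card : ℝ) ^ (P / 2 - 1) * (T.card : ℝ) ^ (1 - P / 2)) * (∑ i ∈ T, a i ^ 2) ^ (P / 2) := by
          ring
      _ = _ := by
          rw [← Real.rpow_add hm]; simp

end

end Q261.FS
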