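import Pool.Agent.Q261.FS.Net
import Pool.Agent.Q261.FS.Signs
import Pool.Agent.Q261.FS.Dr

namespace Q261.FS

open scoped ENNReal Topology
open Filter
open Pool.Helper799.Te (Bes)
open Pool.Agent.Helper799.Khin (sg)

variable {p : ℝ≥0∞} [Fact (1 ≤ p)]

section

variable {m : ℕ} (u : Fin m → ellp p)

/-- signed sums -/
noncomputable def xs (s : Finset (Fin m)) : ellp p := ∑ i, sg s i • u i

lemma xs_apply (s : Finset (Fin m)) (j : ℕ) : (xs u s : ℕ → ℝ) j = ∑ i, sg s i * u i j := by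
  unfold xs
  rw [lp.coeFn_sum, Finset.sum_apply]
  rfl

lemma abs_sg (s : Finset (Fin m)) (i : Fin m) : |sg s i| = 1 := by
  unfold sg; split_ifs <;> simp

lemma phi_xs (P : ℝ) (N : ℕ) (v : List ℕ) (i : ℕ) (s : Finset (Fin m)) :
    phi P N (xs u s) v i = ∑ l, sg s l * phi P N (u l) v i := by
  unfold phi
  simp only [xs_apply]
  rw [Finset.sum_comm, Finset.mul_sum]
  apply Finset.sum_congr rfl
  intro l _
  rw [← Finset.mul_sum]
  ring

lemma phi_comb (P : ℝ) (N : ℕ) (v : List ℕ) (i : ℕ) (a : Fin m → ℝ) :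
    phi P N (∑ l, a l • u l : ellp p) v i = ∑ l, a l * phi P N (u l) v i := by
  unfold phi
  have : ∀ j, (∑ l, a l • u l : ellp p) j = ∑ l, a l * u l j := by
    intro j
    rw [lp.coeFn_sum, Finset.sum_apply]; rfl
  simp only [this]
  rw [Finset.sum_comm, Finset.mul_sum]
  apply Finset.sum_congr rfl
  intro l _
  rw [← Finset.mul_sum]
  ring

/-- the functionals are square summable on a Bessel family -/
lemma phi_sq (hP : 1 < p.toReal) (hu : Bes ℝ u) {N : ℕ} {v : List ℕ} {i : ℕ}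
    (hi : i ≤ v.length) (hN : i ≤ N) : ∑ l, phi p.toReal N (u l) v i ^ 2 ≤ 1 := by
  set S := ∑ l, phi p.toReal N (u l) v i ^ 2 with hS
  have hS0 : 0 ≤ S := Finset.sum_nonneg fun l _ => sq_nonneg _
  have h1 := phi_le_norm hP hi hN (∑ l, phi p.toReal N (u l) v i • u l)
  rw [phi_comb] at h1
  have h2 := hu (fun l => phi p.toReal N (u l) v i)
  simp only [Real.norm_eq_abs, sq_abs] at h2
  have h3 : ∑ l, phi p.toReal N (u l) v i * phi p.toReal N (u l) v i = S := by
    rw [hS]; apply Finset.sum_congr rfl; intro l _; ring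
  rw [h3, abs_of_nonneg hS0] at h1
  have h4 : S ≤ Real.sqrt S := h1.trans h2
  by_contra hcon
  push Not at hcon
  have h5 : Real.sqrt S < S := by
    rw [Real.sqrt_lt' (by linarith)]
    nlinarith
  linarith

lemma norm_u_le (hu : Bes ℝ u) (i : Fin m) : ‖u i‖ ≤ 1 := by
  classical
  have h := hu (Pi.single i 1)
  have h1 : ∑ l, (Pi.single i (1 : ℝ) : Fin m → ℝ) l • u l = u i := by
    rw [Finset.sum_eq_single i]
    · simp
    · intro l _ hl; simp [hl]
    · simp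
  have h2 : ∑ l, ‖(Pi.single i (1 : ℝ) : Fin m → ℝ) l‖ ^ 2 = 1 := by
    rw [Finset.sum_eq_single i]
    · simp
    · intro l _ hl; simp [hl]
    · simp
  rw [h1, h2, Real.sqrt_one] at h
  exact h

lemma norm_xs_le (hu : Bes ℝ u) (s : Finset (Fin m)) : ‖xs u s‖ ≤ Real.sqrt m := by
  have h := hu (fun i => sg s i)
  simp only [Real.norm_eq_abs, abs_sg, one_pow, Finset.sum_const, Finset.card_univ,
    Fintype.card_fin, nsmul_eq_mul, mul_one] at h
  exact h

/-- the envelope -/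
noncomputable def env (j : ℕ) : ℝ := ∑ i, |u i j|

lemma abs_xs_le (s : Finset (Fin m)) (j : ℕ) : |(xs u s : ℕ → ℝ) j| ≤ env u j := by
  rw [xs_apply]
  refine (Finset.abs_sum_le_sum_abs _ _).trans ?_
  unfold env
  apply le_of_eq
  apply Finset.sum_congr rfl
  intro i _
  rw [abs_mul, abs_sg, one_mul]

lemma env_mass (hP : 1 < p.toReal) (hu : Bes ℝ u) (hm : 1 ≤ m) (S : Finset ℕ) :
    ∑ j ∈ S, env u j ^ p.toReal ≤ (m : ℝ) ^ p.toReal := by
  have hm0 : (0 : ℝ) < m := by exact_mod_cast hm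
  have h1 : ∀ j ∈ S, env u j ^ p.toReal ≤ (m : ℝ) ^ (p.toReal - 1) * ∑ i, |u i j| ^ p.toReal := by
    intro j _
    have := Real.rpow_sum_le_const_mul_sum_rpow (s := (Finset.univ : Finset (Fin m)))
      (fun i => u i j) hP.le
    simpa [env] using this
  refine (Finset.sum_le_sum h1).trans ?_
  rw [← Finset.mul_sum, Finset.sum_comm]
  have h2 : ∑ i, ∑ j ∈ S, |u i j| ^ p.toReal ≤ ∑ _i : Fin m, (1 : ℝ) := by
    apply Finset.sum_le_sum
    intro i _
    have h3 := mass_le (by linarith) (u i) S id (Set.injOn_id _)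
    simp only [id] at h3
    refine h3.trans ?_
    exact Real.rpow_le_one (norm_nonneg _) (norm_u_le u hu i) (by linarith)
  rw [Finset.sum_const, Finset.card_univ, Fintype.card_fin, nsmul_eq_mul, mul_one] at h2
  calc _ ≤ (m : ℝ) ^ (p.toReal - 1) * m := by gcongr
    _ = (m : ℝ) ^ p.toReal := by
      nth_rewrite 2 [← Real.rpow_one (m : ℝ)]
      rw [← Real.rpow_add hm0]; congr 1; ring

/-- lower bound for the average norm -/
lemma sum_norm_ge (hP : 1 < p.toReal) (hm : 1 ≤ m) (hu3 : ∀ i, 1 / 3 ≤ ‖u i‖) :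
    2 ^ m * ((9 / 16) ^ p.toReal * (1 / 3) ^ p.toReal * (m : ℝ) ^ (min 1 (p.toReal / 2))) ≤
      ∑ s : Finset (Fin m), ‖xs u s‖ ^ p.toReal := by
  have hp0 : 0 < p.toReal := by linarith
  have hm0 : (0 : ℝ) < m := by exact_mod_cast hm
  set P := p.toReal with hPdef
  have hsum : ∀ x : ellp p, Summable (fun j => |x j| ^ P) := by
    intro x
    have := (lp.memℓp x).summable hp0
    simpa [Real.norm_eq_abs] using this
  have hnorm : ∀ x : ellp p, ‖x‖ ^ P = ∑' j, |x j| ^ P := by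
    intro x
    have := lp.norm_rpow_eq_tsum hp0 x
    simpa [Real.norm_eq_abs] using this
  have h1 : ∑ s : Finset (Fin m), ‖xs u s‖ ^ P = ∑' j, ∑ s : Finset (Fin m), |(xs u s : ℕ → ℝ) j| ^ P := by
    rw [Summable.tsum_finsetSum (fun s _ => hsum (xs u s))]
    exact Finset.sum_congr rfl fun s _ => hnorm _
  rw [h1]
  have hne : (Finset.univ : Finset (Fin m)).Nonempty := ⟨⟨0, by omega⟩, Finset.mem_univ _⟩
  have h2 : ∀ j, 2 ^ m * ((9 / 16) ^ P * ((m : ℝ) ^ (min 1 (P / 2) - 1) * ∑ i, |u i j| ^ P)) ≤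
      ∑ s : Finset (Fin m), |(xs u s : ℕ → ℝ) j| ^ P := by
    intro j
    have e1 := khin_rpow hP.le (Finset.univ : Finset (Fin m)) (fun i => u i j)
    have e2 := l2_ge hP.le (Finset.univ : Finset (Fin m)) hne (fun i => u i j)
    rw [Finset.card_univ, Fintype.card_fin] at e1 e2
    rw [Finset.powerset_univ] at e1
    simp only [xs_apply]
    refine le_trans ?_ e1
    gcongr
  have hs1 : Summable (fun j => ∑ s : Finset (Fin m), |(xs u s : ℕ → ℝ) j| ^ P) :=
    summable_sum fun s _ => hsum (xs u s)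
  have hs2 : Summable (fun j => ∑ i, |u i j| ^ P) := summable_sum fun i _ => hsum (u i)
  have hs3 : Summable (fun j => 2 ^ m * ((9 / 16) ^ P * ((m : ℝ) ^ (min 1 (P / 2) - 1) * ∑ i, |u i j| ^ P))) :=
    ((hs2.mul_left _).mul_left _).mul_left _
  refine le_trans ?_ (hs3.tsum_le_tsum h2 hs1)
  rw [tsum_mul_left, tsum_mul_left, tsum_mul_left, Summable.tsum_finsetSum (fun i _ => hsum (u i))]
  have h3 : (m : ℝ) * (1 / 3) ^ P ≤ ∑ i, ∑' j, |u i j| ^ P := by
    have h4 : ∑ _i : Fin m, ((1 : ℝ) / 3) ^ P ≤ ∑ i, ∑' j, |u i j| ^ P := by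
      apply Finset.sum_le_sum
      intro i _
      rw [← hnorm]
      exact Real.rpow_le_rpow (by norm_num) (hu3 i) hp0.le
    simpa using h4
  have e3 : (m : ℝ) ^ (min 1 (P / 2)) = (m : ℝ) ^ (min 1 (P / 2) - 1) * m := by
    nth_rewrite 3 [← Real.rpow_one (m : ℝ)]
    rw [← Real.rpow_add hm0]; congr 1; ring
  rw [e3]
  calc 2 ^ m * ((9 / 16) ^ P * (1 / 3) ^ P * ((m : ℝ) ^ (min 1 (P / 2) - 1) * m))
      = 2 ^ m * ((9 / 16) ^ P * ((m : ℝ) ^ (min 1 (P / 2) - 1) * (m * (1 / 3) ^ P))) := by ring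
    _ ≤ _ := by gcongr

end

end Q261.FS
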