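import Pool.Agent.Q261.FS.Fss

namespace Q261.FS

open scoped ENNReal Topology
open Filter
open Pool.Helper799.Te (Bes)
open Pool.Agent.Helper799.Khin (sg)

variable {p : ℝ≥0∞} [Fact (1 ≤ p)]

lemma exp_abs_le_cosh (t : ℝ) : Real.exp |t| ≤ 2 * Real.cosh t := by
  rw [← Real.cosh_abs, Real.cosh_eq]
  have := Real.exp_pos (-|t|)
  linarith

/-- a good choice of signs -/
theorem good_signs (hP : 1 < p.toReal) {m : ℕ} (hm : 1 ≤ m) (u : Fin m → ellp p) (hu : Bes ℝ u)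
    (hu3 : ∀ i, 1 / 3 ≤ ‖u i‖) {c : ℝ} (hc : c = (9 / 16) ^ p.toReal * (1 / 3) ^ p.toReal) :
    ∃ s : Finset (Fin m), c * (m : ℝ) ^ (min 1 (p.toReal / 2)) / 2 ≤ ‖xs u s‖ ^ p.toReal ∧
      ∀ k, |tval p.toReal (xs u s) k| ≤
        2 + Real.log ((12 * Real.exp (1 / 2) / c) * (m : ℝ) ^ (2 * p.toReal + 1)) := by
  classical
  set P := p.toReal with hPdef
  have hp0 : 0 < P := by linarith
  have hm0 : (0 : ℝ) < m := by exact_mod_cast hm
  have hm1 : (1 : ℝ) ≤ m := by exact_mod_cast hm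
  set θ := min 1 (P / 2) with hθ
  have hθ0 : 0 ≤ θ := le_min zero_le_one (by positivity)
  have hc0 : 0 < c := by rw [hc]; positivity
  have hc1 : c ≤ 1 := by
    rw [hc]
    exact mul_le_one₀ (Real.rpow_le_one (by norm_num) (by norm_num) hp0.le) (by positivity)
      (Real.rpow_le_one (by norm_num) (by norm_num) hp0.le)
  obtain ⟨NN, hcard, hNN, hnet⟩ := exists_net hP (V := env u)
    (fun j => Finset.sum_nonneg fun i _ => abs_nonneg _) m (fun S => env_mass u hP hu hm S)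
  set μ := c * (m : ℝ) ^ θ with hμ
  have hμ0 : 0 < μ := by positivity
  set Cnt : ℝ := (m : ℝ) ^ P * (m + 1) + 1 with hCnt
  have hCnt0 : 0 < Cnt := by positivity
  set lam : ℝ := μ / (2 * Cnt * Real.exp (1 / 2)) with hlam
  have hlam0 : 0 < lam := by positivity
  have hlow : 2 ^ m * μ ≤ ∑ s : Finset (Fin m), ‖xs u s‖ ^ P := by
    have := sum_norm_ge u hP hm hu3
    rw [← hPdef, ← hc] at this
    exact this
  have hup : ∑ s : Finset (Fin m), ∑ r ∈ NN, Real.cosh (phi P r.1 (xs u s) r.2.1 r.2.2) ≤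
      Cnt * (2 ^ m * Real.exp (1 / 2)) := by
    rw [Finset.sum_comm]
    have h1 : ∀ r ∈ NN, ∑ s : Finset (Fin m), Real.cosh (phi P r.1 (xs u s) r.2.1 r.2.2) ≤
        2 ^ m * Real.exp (1 / 2) := by
      intro r hr
      obtain ⟨h2, h3⟩ := hNN r hr
      have h4 := sum_cosh_le (Finset.univ : Finset (Fin m)) (fun l => phi P r.1 (u l) r.2.1 r.2.2)
        (phi_sq u hP hu h2 h3)
      rw [Finset.powerset_univ, Finset.card_univ, Fintype.card_fin] at h4
      simp only [phi_xs]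
      exact h4
    refine (Finset.sum_le_sum h1).trans ?_
    rw [Finset.sum_const, nsmul_eq_mul]
    have : (NN.card : ℝ) ≤ Cnt := by linarith
    gcongr
  have hex : ∃ s ∈ (Finset.univ : Finset (Finset (Fin m))), μ / 2 ≤ ‖xs u s‖ ^ P -
      lam * ∑ r ∈ NN, Real.cosh (phi P r.1 (xs u s) r.2.1 r.2.2) := by
    apply Finset.exists_le_of_sum_le Finset.univ_nonempty
    rw [Finset.sum_sub_distrib, ← Finset.mul_sum, Finset.sum_const, Finset.card_univ,
      Fintype.card_finset, Fintype.card_fin, nsmul_eq_mul]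
    push_cast
    have h5 : lam * ∑ s : Finset (Fin m), ∑ r ∈ NN, Real.cosh (phi P r.1 (xs u s) r.2.1 r.2.2) ≤
        2 ^ m * (μ / 2) := by
      calc _ ≤ lam * (Cnt * (2 ^ m * Real.exp (1 / 2))) := by gcongr
        _ = 2 ^ m * (μ / 2) := by rw [hlam]; field_simp
    linarith
  obtain ⟨s, -, hs⟩ := hex
  have hcosh0 : 0 ≤ ∑ r ∈ NN, Real.cosh (phi P r.1 (xs u s) r.2.1 r.2.2) :=
    Finset.sum_nonneg fun r _ => (Real.cosh_pos _).le
  have hA : 1 ≤ (12 * Real.exp (1 / 2) / c) * (m : ℝ) ^ (2 * P + 1) := by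
    have h1 : 1 ≤ 12 * Real.exp (1 / 2) / c := by
      rw [le_div_iff₀ hc0]
      have := Real.add_one_le_exp (1 / 2 : ℝ)
      linarith
    have h2 : 1 ≤ (m : ℝ) ^ (2 * P + 1) := Real.one_le_rpow hm1 (by linarith)
    nlinarith
  refine ⟨s, ?_, ?_⟩
  · have := mul_nonneg hlam0.le hcosh0
    linarith
  · intro k
    rcases hnet (xs u s) (abs_xs_le u s) k with h | ⟨r, hr, h⟩
    · have := Real.log_nonneg hA
      linarith
    · refine h.trans ?_
      gcongr
      rw [Real.le_log_iff_exp_le (by linarith)]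
      have h1 : Real.cosh (phi P r.1 (xs u s) r.2.1 r.2.2) ≤
          ∑ r ∈ NN, Real.cosh (phi P r.1 (xs u s) r.2.1 r.2.2) :=
        Finset.single_le_sum (f := fun r : ℕ × List ℕ × ℕ =>
          Real.cosh (phi P r.1 (xs u s) r.2.1 r.2.2)) (fun r _ => (Real.cosh_pos _).le) hr
      have h2 : ‖xs u s‖ ^ P ≤ (m : ℝ) ^ (P / 2) := by
        calc ‖xs u s‖ ^ P ≤ Real.sqrt m ^ P :=
              Real.rpow_le_rpow (norm_nonneg _) (norm_xs_le u hu s) hp0.le
          _ = (m : ℝ) ^ (P / 2) := by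
              rw [Real.sqrt_eq_rpow, ← Real.rpow_mul hm0.le]; congr 1; ring
      have h3 : lam * Real.cosh (phi P r.1 (xs u s) r.2.1 r.2.2) ≤ (m : ℝ) ^ (P / 2) := by
        have := mul_le_mul_of_nonneg_left h1 hlam0.le
        linarith
      have h4 : Real.cosh (phi P r.1 (xs u s) r.2.1 r.2.2) ≤ (m : ℝ) ^ (P / 2) / lam := by
        rw [le_div_iff₀ hlam0, mul_comm]; exact h3
      refine (exp_abs_le_cosh _).trans ?_
      have h5 : Cnt ≤ 3 * (m : ℝ) ^ (P + 1) := by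
        have e1 : (m : ℝ) ^ (P + 1) = (m : ℝ) ^ P * m := by rw [Real.rpow_add hm0, Real.rpow_one]
        have e2 : 1 ≤ (m : ℝ) ^ P := Real.one_le_rpow hm1 hp0.le
        rw [hCnt, e1]
        nlinarith
      have h6 : (1 : ℝ) ≤ (m : ℝ) ^ θ := Real.one_le_rpow hm1 hθ0
      calc 2 * Real.cosh (phi P r.1 (xs u s) r.2.1 r.2.2) ≤ 2 * ((m : ℝ) ^ (P / 2) / lam) := by gcongr
        _ = 4 * Real.exp (1 / 2) / c * (Cnt * ((m : ℝ) ^ (P / 2) / (m : ℝ) ^ θ)) := by
            rw [hlam, hμ]; field_simp; ring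
        _ ≤ 4 * Real.exp (1 / 2) / c * (3 * (m : ℝ) ^ (P + 1) * ((m : ℝ) ^ (P / 2) / 1)) := by
            gcongr
        _ = (12 * Real.exp (1 / 2) / c) * ((m : ℝ) ^ (P + 1) * (m : ℝ) ^ (P / 2)) := by ring
        _ = (12 * Real.exp (1 / 2) / c) * (m : ℝ) ^ (P + 1 + P / 2) := by rw [← Real.rpow_add hm0]
        _ ≤ _ := by
            apply mul_le_mul_of_nonneg_left _ (by positivity)
            apply Real.rpow_le_rpow_of_exponent_le hm1
            linarith

/-- logarithms are smaller than powers -/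
lemma exists_large (a b κ δ : ℝ) (hb : 0 ≤ b) (hκ : 0 < κ) (hδ : 0 < δ) :
    ∃ m : ℕ, 1 ≤ m ∧ a + b * Real.log m < κ * (m : ℝ) ^ δ := by
  have h1 := isLittleO_log_rpow_atTop hδ
  have h2 : ∀ᶠ x : ℝ in atTop, ‖Real.log x‖ ≤ (κ / (4 * (b + 1))) * ‖x ^ δ‖ := h1.def (by positivity)
  have h3 : ∀ᶠ x : ℝ in atTop, 2 * |a| / κ < x ^ δ := (tendsto_rpow_atTop hδ).eventually_gt_atTop _
  obtain ⟨m, hm2, hm3, hm1⟩ := ((tendsto_natCast_atTop_atTop.eventually h2).and
    ((tendsto_natCast_atTop_atTop.eventually h3).and (eventually_ge_atTop 1))).exists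
  refine ⟨m, hm1, ?_⟩
  have hm0 : (0 : ℝ) < m := by exact_mod_cast hm1
  have hpos : 0 < (m : ℝ) ^ δ := Real.rpow_pos_of_pos hm0 _
  rw [Real.norm_of_nonneg hpos.le, Real.norm_eq_abs] at hm2
  have e1 : Real.log m ≤ κ / (4 * (b + 1)) * (m : ℝ) ^ δ := (le_abs_self _).trans hm2
  have e2 : b * Real.log m ≤ κ / 4 * (m : ℝ) ^ δ := by
    calc b * Real.log m ≤ b * (κ / (4 * (b + 1)) * (m : ℝ) ^ δ) := by gcongr
      _ = (b / (b + 1)) * (κ / 4 * (m : ℝ) ^ δ) := by field_simp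
      _ ≤ 1 * (κ / 4 * (m : ℝ) ^ δ) := by
          gcongr
          rw [div_le_one (by linarith)]; linarith
      _ = _ := one_mul _
  have e3 : 2 * |a| < κ * (m : ℝ) ^ δ := by
    rw [div_lt_iff₀ hκ] at hm3; linarith
  have e4 := le_abs_self a
  nlinarith [mul_pos hκ hpos]

theorem treeOp_fss (hP : 1 < p.toReal) : FinStrictlySingular (treeOp (p := p) hP) := by
  intro ε hε
  set P := p.toReal with hPdef
  have hp0 : 0 < P := by linarith
  set c : ℝ := (9 / 16) ^ P * (1 / 3) ^ P with hc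
  have hc0 : 0 < c := by positivity
  set θ := min 1 (P / 2) with hθ
  have hθ0 : 0 < θ := lt_min zero_lt_one (by positivity)
  obtain ⟨m, hm1, hm⟩ := exists_large (2 + Real.log (12 * Real.exp (1 / 2) / c)) (2 * P + 1)
    (ε * (c / 2) ^ (1 / P)) (θ / P) (by linarith) (by positivity) (by positivity)
  have hm0 : (0 : ℝ) < m := by exact_mod_cast hm1
  refine ⟨2 * m, ?_⟩
  intro E hE
  obtain ⟨u, huE, hu, hu3⟩ := exists_dr_sub E m hE
  obtain ⟨s, hs1, hs2⟩ := good_signs hP hm1 u hu hu3 hc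
  have hxE : xs u s ∈ E := Submodule.sum_mem _ fun i _ => Submodule.smul_mem _ _ (huE i)
  have hlow : (c / 2) ^ (1 / P) * (m : ℝ) ^ (θ / P) ≤ ‖xs u s‖ := by
    have h1 : (c / 2 * (m : ℝ) ^ θ) ^ (1 / P) ≤ (‖xs u s‖ ^ P) ^ (1 / P) := by
      apply Real.rpow_le_rpow (by positivity) _ (by positivity)
      refine le_trans (le_of_eq ?_) hs1
      rw [← hPdef, ← hθ]; ring
    rw [← Real.rpow_mul (norm_nonneg _), mul_one_div_cancel hp0.ne', Real.rpow_one,
      Real.mul_rpow (by positivity) (by positivity), ← Real.rpow_mul hm0.le] at h1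
    have e : θ * (1 / P) = θ / P := by ring
    rwa [e] at h1
  refine ⟨xs u s, hxE, ?_, ?_⟩
  · intro h0
    rw [h0, norm_zero] at hlow
    have : 0 < (c / 2) ^ (1 / P) * (m : ℝ) ^ (θ / P) := by positivity
    linarith
  · have h1 : Real.log ((12 * Real.exp (1 / 2) / c) * (m : ℝ) ^ (2 * P + 1)) =
        Real.log (12 * Real.exp (1 / 2) / c) + (2 * P + 1) * Real.log m := by
      rw [Real.log_mul (by positivity) (by positivity), Real.log_rpow hm0]
    have h2 : ‖treeOp hP (xs u s)‖ ≤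
        2 + Real.log ((12 * Real.exp (1 / 2) / c) * (m : ℝ) ^ (2 * P + 1)) := by
      apply norm_treeOp_le hP _ _ hs2
      exact (abs_nonneg _).trans (hs2 0)
    rw [h1] at h2
    calc ‖treeOp hP (xs u s)‖ ≤ 2 + Real.log (12 * Real.exp (1 / 2) / c) + (2 * P + 1) * Real.log m := by
          linarith
      _ < ε * (c / 2) ^ (1 / P) * (m : ℝ) ^ (θ / P) := hm
      _ = ε * ((c / 2) ^ (1 / P) * (m : ℝ) ^ (θ / P)) := by ring
      _ ≤ ε * ‖xs u s‖ := by gcongr

end Q261.FS
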