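import Pool.Agent.Q261.FS.Op

namespace Q261.FS

open scoped ENNReal Topology
open Filter

lemma nd_append_lt {N : ℕ} {v : List ℕ} {c s : ℕ} (hs : s < v.length) :
    nd N (v ++ [c]) s = nd N v s := by
  unfold nd
  rw [List.take_append_of_le_length (by omega)]

lemma nd_append_last {N : ℕ} {v : List ℕ} {c : ℕ} :
    nd N (v ++ [c]) v.length = enc (N, v ++ [c]) := by
  unfold nd
  rw [List.take_of_length_le (by simp)]

/-- greedy choice of a branch -/
lemma greedy (N : ℕ) (Bad : Finset ℕ → Set ℕ)
    (h : ∀ J : Finset ℕ, J.card ≤ N → ∀ S : Finset ℕ, (∀ j ∈ S, j ∈ Bad J) → S.card < 2 ^ N) :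
    ∀ l ≤ N, ∃ v : List ℕ, v.length = l ∧ (∀ a ∈ v, a < 2 ^ N) ∧
      ∀ s < l, nd N v s ∉ Bad ((Finset.range s).image (nd N v)) := by
  classical
  intro l
  induction l with
  | zero => exact fun _ => ⟨[], rfl, by simp, by simp⟩
  | succ l ih =>
    intro hl
    obtain ⟨v, hv1, hv2, hv3⟩ := ih (by omega)
    let J := (Finset.range l).image (nd N v)
    have hJ : J.card ≤ N := by
      refine Finset.card_image_le.trans ?_
      simp only [Finset.card_range]; omega
    obtain ⟨c, hc1, hc2⟩ : ∃ c < 2 ^ N, enc (N, v ++ [c]) ∉ Bad J := by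
      by_contra hcon
      push Not at hcon
      have h1 := h J hJ ((Finset.range (2 ^ N)).image (fun c => enc (N, v ++ [c]))) (by
        intro j hj
        rw [Finset.mem_image] at hj
        obtain ⟨c, hc, rfl⟩ := hj
        exact hcon c (by simpa using hc))
      rw [Finset.card_image_of_injective, Finset.card_range] at h1
      · exact lt_irrefl _ h1
      · intro c c' hcc
        have := enc.injective hcc
        simpa using this
    refine ⟨v ++ [c], by simp [hv1], ?_, ?_⟩
    · intro a ha
      rw [List.mem_append, List.mem_singleton] at ha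
      rcases ha with ha | rfl
      · exact hv2 a ha
      · exact hc1
    · intro s hs
      have himg : ∀ t ≤ l, (Finset.range t).image (nd N (v ++ [c])) = (Finset.range t).image (nd N v) := by
        intro t ht
        apply Finset.image_congr
        intro a ha
        simp only [Finset.coe_range, Set.mem_Iio] at ha
        exact nd_append_lt (by omega)
      rcases Nat.lt_or_ge s l with h1 | h1
      · rw [himg s (by omega), nd_append_lt (by omega)]
        exact hv3 s h1
      · have h2 : s = v.length := by omega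
        rw [himg s (by omega)]
        subst h2
        rw [nd_append_last, hv1]
        exact hc2

/-- signs in an inner product space -/
lemma exists_signs {H : Type} [NormedAddCommGroup H] [InnerProductSpace ℝ H]
    (S : Finset ℕ) (y : ℕ → H) : ∃ ε : ℕ → ℝ, (∀ j, ε j = 1 ∨ ε j = -1) ∧
      ∑ j ∈ S, ‖y j‖ ^ 2 ≤ ‖∑ j ∈ S, ε j • y j‖ ^ 2 := by
  classical
  induction S using Finset.induction_on with
  | empty => exact ⟨fun _ => 1, fun _ => Or.inl rfl, by simp⟩
  | insert a S ha ih =>
    obtain ⟨ε, h1, h2⟩ := ih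
    have hpar := parallelogram_law_with_norm ℝ (∑ j ∈ S, ε j • y j) (y a)
    have hrest : ∀ t : ℝ, ∑ j ∈ S, (Function.update ε a t) j • y j = ∑ j ∈ S, ε j • y j := by
      intro t
      apply Finset.sum_congr rfl
      intro j hj
      have hja : j ≠ a := by rintro rfl; exact ha hj
      rw [Function.update_of_ne hja]
    by_cases hc : ∑ j ∈ insert a S, ‖y j‖ ^ 2 ≤ ‖∑ j ∈ S, ε j • y j + y a‖ ^ 2
    · refine ⟨Function.update ε a 1, ?_, ?_⟩
      · intro j
        by_cases hj : j = a
        · subst hj; simp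
        · rw [Function.update_of_ne hj]; exact h1 j
      · rw [Finset.sum_insert ha (f := fun j => (Function.update ε a 1) j • y j), hrest,
          Function.update_self, one_smul, add_comm (y a)]
        exact hc
    · refine ⟨Function.update ε a (-1), ?_, ?_⟩
      · intro j
        by_cases hj : j = a
        · subst hj; simp
        · rw [Function.update_of_ne hj]; exact h1 j
      · rw [Finset.sum_insert ha (f := fun j => (Function.update ε a (-1)) j • y j), hrest,
          Function.update_self, neg_smul, one_smul, neg_add_eq_sub]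
        rw [Finset.sum_insert ha] at hc ⊢
        push Not at hc
        nlinarith [hpar, hc, h2]

/-- real signs for a functional -/
lemma exists_signs_real (S : Finset ℕ) (y : ℕ → ℝ) : ∃ ε : ℕ → ℝ, (∀ j, ε j = 1 ∨ ε j = -1) ∧
      ∑ j ∈ S, |y j| = ∑ j ∈ S, ε j * y j := by
  refine ⟨fun j => if 0 ≤ y j then 1 else -1, ?_, ?_⟩
  · intro j; by_cases h : 0 ≤ y j <;> simp [h]
  · apply Finset.sum_congr rfl
    intro j _
    by_cases h : 0 ≤ y j
    · simp [h, abs_of_nonneg h]
    · simp [h, abs_of_neg (not_le.1 h)]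

variable {p : ℝ≥0∞} [Fact (1 ≤ p)]

/-- unit vectors -/
noncomputable def ev (p : ℝ≥0∞) (j : ℕ) : ellp p := lp.single p j (1 : ℝ)

lemma ev_apply (j i : ℕ) : (ev p j : ℕ → ℝ) i = if i = j then 1 else 0 := by
  unfold ev
  rw [lp.coeFn_single, Pi.single_apply]

lemma norm_ev (hp : 0 < p) (j : ℕ) : ‖ev p j‖ = 1 := by
  unfold ev
  rw [lp.norm_single hp]; simp

/-- norm of a signed sum of unit vectors -/
lemma norm_signed (hp0 : 0 < p.toReal) (S : Finset ℕ) (ε : ℕ → ℝ)
    (hε : ∀ j, ε j = 1 ∨ ε j = -1) :
    ‖∑ j ∈ S, ε j • ev p j‖ ≤ (S.card : ℝ) ^ (1 / p.toReal) := by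
  classical
  have happ : ∀ i, (∑ j ∈ S, ε j • ev p j : ellp p) i = if i ∈ S then ε i else 0 := by
    intro i
    rw [lp.coeFn_sum, Finset.sum_apply]
    simp only [lp.coeFn_smul, Pi.smul_apply, ev_apply, smul_eq_mul, mul_ite, mul_one, mul_zero]
    rw [Finset.sum_ite_eq]
  apply lp.norm_le_of_forall_sum_le hp0 (by positivity)
  intro s
  rw [← Real.rpow_mul (Nat.cast_nonneg _), one_div_mul_cancel hp0.ne', Real.rpow_one]
  calc ∑ i ∈ s, ‖(∑ j ∈ S, ε j • ev p j : ellp p) i‖ ^ p.toReal
      ≤ ∑ i ∈ s, (if i ∈ S then (1 : ℝ) else 0) := by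
        apply Finset.sum_le_sum
        intro i _
        rw [happ]
        split_ifs with h
        · rcases hε i with h | h <;> simp [h]
        · simp [hp0.ne']
    _ ≤ S.card := by
        rw [Finset.sum_ite_mem, Finset.sum_const, nsmul_eq_mul, mul_one]
        exact_mod_cast Finset.card_le_card Finset.inter_subset_right

end Q261.FS
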