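import Pool.Agent.Q261.FS.Op

namespace Q261.FS

open scoped ENNReal Topology
open Filter

/-- mass of `V` on a segment of a word -/
noncomputable def asum (P : ℝ) (V : ℕ → ℝ) (N : ℕ) (v : List ℕ) (i j : ℕ) : ℝ :=
  (N : ℝ) ^ (1 / P - 1) * ∑ s ∈ Finset.Ico i j, V (nd N v s)

/-- nodes from which a branch with large mass starts -/
def DD (P : ℝ) (V : ℕ → ℝ) : Set (ℕ × List ℕ) :=
  {d | 1 ≤ d.2.length ∧ d.2.length ≤ d.1 ∧ ∃ w, valid d.1 w ∧ d.2 <+: w ∧
    1 < asum P V d.1 w (d.2.length - 1) d.1}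

/-- maximal nodes -/
def LL (P : ℝ) (V : ℕ → ℝ) : Set (ℕ × List ℕ) :=
  {d | d ∈ DD P V ∧ ∀ v', (d.1, v') ∈ DD P V → d.2 <+: v' → v' = d.2}

section

variable {P : ℝ} {V : ℕ → ℝ}

lemma asum_nonneg (hV : ∀ j, 0 ≤ V j) (N : ℕ) (v : List ℕ) (i j : ℕ) :
    0 ≤ asum P V N v i j := by
  unfold asum
  apply mul_nonneg (Real.rpow_nonneg (Nat.cast_nonneg _) _)
  exact Finset.sum_nonneg fun s _ => hV _

lemma asum_split (N : ℕ) (v : List ℕ) {i j k : ℕ} (h1 : i ≤ j) (h2 : j ≤ k) :
    asum P V N v i k = asum P V N v i j + asum P V N v j k := by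
  unfold asum
  rw [← mul_add, Finset.sum_Ico_consecutive _ h1 h2]

lemma asum_le (hP : 1 < P) (hV : ∀ j, 0 ≤ V j) (N : ℕ) (v : List ℕ) (i j : ℕ) (hj : j ≤ N) :
    asum P V N v i j ≤ (∑ s ∈ Finset.Ico i j, V (nd N v s) ^ P) ^ (1 / P) := by
  unfold asum
  exact seg_le hP _ (by rw [Nat.card_Ico]; omega) (fun s => V (nd N v s)) (fun s => hV _)

lemma nd_injOn (N : ℕ) (v : List ℕ) (i j : ℕ) (hj : j ≤ v.length) :
    Set.InjOn (nd N v) (Finset.Ico i j : Finset ℕ) := by
  intro a ha b hb h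
  simp only [Finset.coe_Ico, Set.mem_Ico] at ha hb
  exact nd_inj (by omega) (by omega) h

lemma asum_le_M (hP : 1 < P) (hV : ∀ j, 0 ≤ V j) {M : ℝ} (hM : 0 ≤ M)
    (hVM : ∀ S : Finset ℕ, ∑ j ∈ S, V j ^ P ≤ M ^ P) (N : ℕ) (v : List ℕ) (i j : ℕ) (hj : j ≤ N)
    (hj' : j ≤ v.length) : asum P V N v i j ≤ M := by
  refine (asum_le hP hV N v i j hj).trans ?_
  have h1 := hVM ((Finset.Ico i j).image (nd N v))
  rw [Finset.sum_image (nd_injOn N v i j hj')] at h1
  have h0 : 0 ≤ ∑ s ∈ Finset.Ico i j, V (nd N v s) ^ P :=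
    Finset.sum_nonneg fun s _ => Real.rpow_nonneg (hV _) _
  calc _ ≤ (M ^ P) ^ (1 / P) := by
        apply Real.rpow_le_rpow h0 h1
        have : 0 < P := by linarith
        positivity
    _ = M := by
        rw [← Real.rpow_mul hM, mul_one_div_cancel (by linarith), Real.rpow_one]

lemma nd_eq_of_prefix {N : ℕ} {v w : List ℕ} {l s : ℕ} (h : w.take l <+: v) (hl : l ≤ w.length)
    (hs : s < l) : nd N v s = nd N w s := by
  unfold nd
  obtain ⟨z, hz⟩ := h
  rw [← hz, List.take_append_of_le_length (by rw [List.length_take]; omega), List.take_take]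
  congr 3
  omega

open Classical in
/-- the maximal nodes carry disjoint masses -/
lemma card_LL (hP : 1 < P) (hV : ∀ j, 0 ≤ V j) {M : ℝ}
    (hVM : ∀ S : Finset ℕ, ∑ j ∈ S, V j ^ P ≤ M ^ P) (F : Finset (ℕ × List ℕ))
    (hF : ∀ d ∈ F, d ∈ LL P V) : (F.card : ℝ) ≤ M ^ P := by
  have hex : ∀ d : ℕ × List ℕ, ∃ w, d ∈ DD P V → (valid d.1 w ∧ d.2 <+: w ∧
      1 < asum P V d.1 w (d.2.length - 1) d.1) := by
    intro d
    by_cases h : d ∈ DD P V
    · obtain ⟨h1, h2, w, hw⟩ := h
      exact ⟨w, fun _ => hw⟩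
    · exact ⟨[], fun h' => absurd h' h⟩
  choose w hw using hex
  let seg : ℕ × List ℕ → Finset ℕ := fun d =>
    (Finset.Ico (d.2.length - 1) d.1).image (nd d.1 (w d))
  have hdisj : ∀ d ∈ F, ∀ d' ∈ F, d ≠ d' → Disjoint (seg d) (seg d') := by
    intro d hd d' hd' hne
    rw [Finset.disjoint_left]
    intro j hj hj'
    simp only [seg, Finset.mem_image, Finset.mem_Ico] at hj hj'
    obtain ⟨s, ⟨hs1, hs2⟩, hs3⟩ := hj
    obtain ⟨s', ⟨hs1', hs2'⟩, hs3'⟩ := hj'
    obtain ⟨hD, hmax⟩ := hF d hd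
    obtain ⟨hD', hmax'⟩ := hF d' hd'
    have hw1 := hw d hD
    have hw2 := hw d' hD'
    rw [← hs3'] at hs3
    have h1 := enc.injective hs3
    simp only [Prod.mk.injEq] at h1
    obtain ⟨hN, htake⟩ := h1
    have hp1 : d.2 <+: (w d).take (s + 1) := by
      rw [List.prefix_take_iff]; exact ⟨hw1.2.1, by omega⟩
    have hp2 : d'.2 <+: (w d').take (s' + 1) := by
      rw [List.prefix_take_iff]; exact ⟨hw2.2.1, by omega⟩
    rw [← htake] at hp2
    rcases List.prefix_or_prefix_of_prefix hp1 hp2 with h | h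
    · have h3 := hmax d'.2 (by rw [hN]; exact hD') h
      exact hne (Prod.ext hN h3.symm)
    · have h3 := hmax' d.2 (by rw [← hN]; exact hD) h
      exact hne (Prod.ext hN h3)
  have hmass : ∀ d ∈ F, 1 ≤ ∑ j ∈ seg d, V j ^ P := by
    intro d hd
    obtain ⟨hD, -⟩ := hF d hd
    have hw1 := hw d hD
    simp only [seg]
    rw [Finset.sum_image (nd_injOn _ _ _ _ (by rw [hw1.1.2.1]))]
    have h1 := lt_of_lt_of_le hw1.2.2 (asum_le hP hV d.1 (w d) (d.2.length - 1) d.1 le_rfl)
    by_contra hcon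
    push Not at hcon
    have h2 : (∑ s ∈ Finset.Ico (d.2.length - 1) d.1, V (nd d.1 (w d) s) ^ P) ^ (1 / P) ≤ 1 := by
      apply Real.rpow_le_one
      · exact Finset.sum_nonneg fun s _ => Real.rpow_nonneg (hV _) _
      · exact hcon.le
      · have : 0 < P := by linarith
        positivity
    linarith
  calc (F.card : ℝ) = ∑ _d ∈ F, (1 : ℝ) := by simp
    _ ≤ ∑ d ∈ F, ∑ j ∈ seg d, V j ^ P := Finset.sum_le_sum hmass
    _ = ∑ j ∈ F.biUnion seg, V j ^ P := by
        rw [Finset.sum_biUnion]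
        intro d hd d' hd' hne
        exact hdisj d hd d' hd' hne
    _ ≤ M ^ P := hVM _

lemma finite_LL (hP : 1 < P) (hV : ∀ j, 0 ≤ V j) {M : ℝ}
    (hVM : ∀ S : Finset ℕ, ∑ j ∈ S, V j ^ P ≤ M ^ P) : (LL P V).Finite := by
  by_contra hinf
  obtain ⟨F, hF1, hF2⟩ := (Set.not_finite.1 hinf).exists_subset_card_eq (⌈M ^ P⌉₊ + 1)
  have := card_LL hP hV hVM F (fun d hd => hF1 hd)
  rw [hF2] at this
  have h2 := Nat.le_ceil (M ^ P)
  push_cast at this
  linarith

/-- every heavy node extends to a maximal one -/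
lemma exists_LL (N : ℕ) : ∀ (r : ℕ) (v : List ℕ), N - v.length ≤ r → (N, v) ∈ DD P V →
    ∃ v', v <+: v' ∧ (N, v') ∈ LL P V := by
  intro r
  induction r with
  | zero =>
    intro v hr hv
    refine ⟨v, List.prefix_refl v, hv, ?_⟩
    intro v' hv' hpre
    have hpre' : v <+: v' := hpre
    have h1 := hv'.2.1
    have h2 := hpre'.length_le
    simp only at h1
    exact (hpre'.eq_of_length (by omega)).symm
  | succ r ih =>
    intro v hr hv
    by_cases h : (N, v) ∈ LL P V
    · exact ⟨v, List.prefix_refl v, h⟩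
    · have h2 : ∃ v', (N, v') ∈ DD P V ∧ v <+: v' ∧ v' ≠ v := by
        by_contra hcon
        push Not at hcon
        exact h ⟨hv, fun v' hv' hpre => hcon v' hv' hpre⟩
      obtain ⟨v', hv', hpre, hne⟩ := h2
      have h3 : v.length < v'.length := by
        rcases Nat.lt_or_ge v.length v'.length with h4 | h4
        · exact h4
        · exact absurd (hpre.eq_of_length (le_antisymm hpre.length_le h4)).symm hne
      have h5 := hv'.2.1
      simp only at h5
      obtain ⟨v'', h6, h7⟩ := ih v' (by omega) hv'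
      exact ⟨v'', hpre.trans h6, h7⟩

/-- the index up to which the mass of a word is at most `j` -/
noncomputable def lev (P : ℝ) (V : ℕ → ℝ) (N : ℕ) (v : List ℕ) (j : ℕ) : ℕ :=
  Nat.findGreatest (fun i => asum P V N v 0 i ≤ j) v.length

open Classical in
/-- the net of partial sums -/
lemma exists_net (hP : 1 < P) (hV : ∀ j, 0 ≤ V j) (M : ℕ)
    (hVM : ∀ S : Finset ℕ, ∑ j ∈ S, V j ^ P ≤ (M : ℝ) ^ P) :
    ∃ NN : Finset (ℕ × List ℕ × ℕ), (NN.card : ℝ) ≤ (M : ℝ) ^ P * (M + 1) ∧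
      (∀ r ∈ NN, r.2.2 ≤ r.2.1.length ∧ r.2.2 ≤ r.1) ∧
      ∀ x : ℕ → ℝ, (∀ j, |x j| ≤ V j) → ∀ k, |tval P x k| ≤ 1 ∨
        ∃ r ∈ NN, |tval P x k| ≤ 2 + |phi P r.1 x r.2.1 r.2.2| := by
  have hfin := finite_LL hP hV hVM
  let NN : Finset (ℕ × List ℕ × ℕ) := (hfin.toFinset ×ˢ Finset.range (M + 1)).image
    (fun d => (d.1.1, d.1.2, lev P V d.1.1 d.1.2 d.2))
  refine ⟨NN, ?_, ?_, ?_⟩
  · have h1 : NN.card ≤ hfin.toFinset.card * (M + 1) := by
      refine Finset.card_image_le.trans ?_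
      rw [Finset.card_product, Finset.card_range]
    have h2 := card_LL hP hV hVM hfin.toFinset (fun d hd => by simpa using hd)
    calc (NN.card : ℝ) ≤ ((hfin.toFinset.card * (M + 1) : ℕ) : ℝ) := by exact_mod_cast h1
      _ = hfin.toFinset.card * ((M : ℝ) + 1) := by push_cast; ring
      _ ≤ _ := by gcongr
  · intro r hr
    simp only [NN, Finset.mem_image, Finset.mem_product, Set.Finite.mem_toFinset, Finset.mem_range,
      Prod.exists] at hr
    obtain ⟨N, v, j, ⟨hL, hj⟩, rfl⟩ := hr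
    simp only
    have h1 : lev P V N v j ≤ v.length := Nat.findGreatest_le _
    have h2 := hL.1.2.1
    simp only at h2
    exact ⟨h1, h1.trans h2⟩
  · intro x hx k
    have hxV : ∀ (N : ℕ) (v : List ℕ) (i j : ℕ),
        |(N : ℝ) ^ (1 / P - 1) * ∑ s ∈ Finset.Ico i j, x (nd N v s)| ≤ asum P V N v i j := by
      intro N v i j
      unfold asum
      rw [abs_mul, abs_of_nonneg (Real.rpow_nonneg (Nat.cast_nonneg N) _)]
      gcongr
      exact (Finset.abs_sum_le_sum_abs _ _).trans (Finset.sum_le_sum fun s _ => hx _)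
    have hphi : ∀ (N : ℕ) (v : List ℕ) (i j : ℕ), i ≤ j →
        phi P N x v j = phi P N x v i + (N : ℝ) ^ (1 / P - 1) * ∑ s ∈ Finset.Ico i j, x (nd N v s) := by
      intro N v i j hij
      unfold phi
      rw [← mul_add, Finset.range_eq_Ico, Finset.range_eq_Ico, Finset.sum_Ico_consecutive _
        (Nat.zero_le _) hij]
    have hphi0 : ∀ (N : ℕ) (v : List ℕ), phi P N x v 0 = 0 := by
      intro N v; unfold phi; simp
    unfold tval
    split_ifs with hval
    swap
    · left; simp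
    generalize (enc.symm k).1 = N at *
    generalize (enc.symm k).2 = w at *
    have hwl := hval.2.1
    -- tails not in `DD`
    have htail : ∀ s, s < N → (N, w.take (s + 1)) ∉ DD P V → asum P V N w s N ≤ 1 := by
      intro s hs hnot
      by_contra hcon
      push Not at hcon
      apply hnot
      have hlen : (w.take (s + 1)).length = s + 1 := by rw [List.length_take]; omega
      refine ⟨by simp only [hlen]; omega, by simp only [hlen]; omega, w, hval, List.take_prefix _ _, ?_⟩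
      simp only [hlen, Nat.add_sub_cancel]
      exact hcon
    by_cases hex : ∃ s, s < N ∧ (N, w.take (s + 1)) ∈ DD P V
    swap
    · left
      push Not at hex
      have h1 := htail 0 (by have := hval.1; omega) (hex 0 (by have := hval.1; omega))
      have h2 := hphi N w 0 N (Nat.zero_le _)
      rw [hphi0, zero_add] at h2
      rw [h2]
      exact (hxV N w 0 N).trans h1
    · right
      -- the last node of the branch in `DD`
      obtain ⟨s1, hs1, hs1D⟩ := hex
      let s0 := Nat.findGreatest (fun s => s < N ∧ (N, w.take (s + 1)) ∈ DD P V) N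
      have hs0 : s0 < N ∧ (N, w.take (s0 + 1)) ∈ DD P V :=
        Nat.findGreatest_spec (P := fun s => s < N ∧ (N, w.take (s + 1)) ∈ DD P V) hs1.le ⟨hs1, hs1D⟩
      have hmax : ∀ s, s0 < s → s < N → (N, w.take (s + 1)) ∉ DD P V := by
        intro s h1 h2 h3
        exact Nat.findGreatest_is_greatest h1 h2.le ⟨h2, h3⟩
      have htail2 : asum P V N w (s0 + 1) N ≤ 1 := by
        rcases Nat.lt_or_ge (s0 + 1) N with h | h
        · exact htail (s0 + 1) h (hmax (s0 + 1) (by omega) h)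
        · have : s0 + 1 = N := by omega
          rw [this]
          unfold asum
          simp
      obtain ⟨v, hpre, hL⟩ := exists_LL N N (w.take (s0 + 1)) (by omega) hs0.2
      have hvl := hL.1.2.1
      simp only at hvl
      have hlen : (w.take (s0 + 1)).length = s0 + 1 := by rw [List.length_take]; omega
      have hv0 : s0 + 1 ≤ v.length := by
        have := hpre.length_le
        omega
      have hnd : ∀ s < s0 + 1, nd N v s = nd N w s := fun s hs =>
        nd_eq_of_prefix hpre (by omega) hs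
      set a := asum P V N v 0 (s0 + 1) with ha
      have ha0 : 0 ≤ a := asum_nonneg hV _ _ _ _
      have haM : a ≤ M := asum_le_M hP hV (Nat.cast_nonneg M) hVM N v 0 (s0 + 1) (by omega) hv0
      have hceil : a ≤ (⌈a⌉₊ : ℝ) := Nat.le_ceil a
      have hceil2 : (⌈a⌉₊ : ℝ) < a + 1 := Nat.ceil_lt_add_one ha0
      have hceilM : ⌈a⌉₊ ≤ M := Nat.ceil_le.2 haM
      set i := lev P V N v ⌈a⌉₊ with hi
      have hi1 : s0 + 1 ≤ i := Nat.le_findGreatest hv0 hceil
      have hi2 : asum P V N v 0 i ≤ ⌈a⌉₊ :=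
        Nat.findGreatest_spec (P := fun i => asum P V N v 0 i ≤ ⌈a⌉₊) hv0 hceil
      refine ⟨(N, v, i), ?_, ?_⟩
      · simp only [NN, Finset.mem_image, Finset.mem_product, Set.Finite.mem_toFinset,
          Finset.mem_range, Prod.exists]
        exact ⟨N, v, ⌈a⌉₊, ⟨hL, by omega⟩, rfl⟩
      · simp only
        have e1 := hphi N w (s0 + 1) N (by omega)
        have e2 := hphi N v (s0 + 1) i hi1
        have e3 : phi P N x w (s0 + 1) = phi P N x v (s0 + 1) := by
          unfold phi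
          congr 1
          apply Finset.sum_congr rfl
          intro s hs
          rw [hnd s (Finset.mem_range.1 hs)]
        have b1 := (hxV N w (s0 + 1) N).trans htail2
        have b2 := hxV N v (s0 + 1) i
        have b3 := asum_split (P := P) (V := V) N v (Nat.zero_le (s0 + 1)) hi1
        have b4 : asum P V N v (s0 + 1) i ≤ 1 := by linarith
        have e4 : phi P N x w N = phi P N x v i +
            ((N : ℝ) ^ (1 / P - 1) * ∑ s ∈ Finset.Ico (s0 + 1) N, x (nd N w s)
              - (N : ℝ) ^ (1 / P - 1) * ∑ s ∈ Finset.Ico (s0 + 1) i, x (nd N v s)) := by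
          rw [e1, e2, e3]; ring
        rw [e4]
        refine (abs_add_le _ _).trans ?_
        have b5 := abs_sub ((N : ℝ) ^ (1 / P - 1) * ∑ s ∈ Finset.Ico (s0 + 1) N, x (nd N w s))
          ((N : ℝ) ^ (1 / P - 1) * ∑ s ∈ Finset.Ico (s0 + 1) i, x (nd N v s))
        linarith

end

end Q261.FS
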