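import Pool.Agent.Q261.FS.Greedy

namespace Q261.FS

open scoped ENNReal Topology
open Filter

variable {p : ℝ≥0∞} [Fact (1 ≤ p)]

lemma p_pos (hP : 1 < p.toReal) : 0 < p := by
  rw [pos_iff_ne_zero]; rintro rfl; simp at hP; linarith

/-- few blocks of a vector are large -/
lemma card_big (hp0 : 0 < p.toReal) (y : domK p) {η : ℝ} (hη : 0 < η) (S : Finset ℕ)
    (hS : ∀ m ∈ S, η < ‖y m‖) : (S.card : ℝ) ≤ (‖y‖ / η) ^ p.toReal := by
  have h1 := lp.sum_rpow_le_norm_rpow hp0 y S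
  have h2 : (S.card : ℝ) * η ^ p.toReal ≤ ∑ m ∈ S, ‖y m‖ ^ p.toReal := by
    rw [← nsmul_eq_mul]
    apply Finset.card_nsmul_le_sum
    intro m hm
    exact Real.rpow_le_rpow hη.le (hS m hm).le hp0.le
  rw [Real.div_rpow (norm_nonneg _) hη.le, le_div_iff₀ (Real.rpow_pos_of_pos hη _)]
  exact h2.trans h1

/-- the block maps -/
noncomputable def blk {n : ℕ} (B : Fin n → ellp p →L[ℝ] domK p) (α : Fin n × ℕ) (x : ellp p) :
    EuclideanSpace ℝ (Fin (α.2 + 1)) := (B α.1 x) α.2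

section

variable {n : ℕ} (B : Fin n → ellp p →L[ℝ] domK p)

lemma blk_add (α : Fin n × ℕ) (x y : ellp p) : blk B α (x + y) = blk B α x + blk B α y := by
  unfold blk; rw [map_add, lp.coeFn_add]; rfl

lemma blk_smul (α : Fin n × ℕ) (c : ℝ) (x : ellp p) : blk B α (c • x) = c • blk B α x := by
  unfold blk; rw [map_smul, lp.coeFn_smul]; rfl

lemma blk_zero (α : Fin n × ℕ) : blk B α 0 = 0 := by
  unfold blk; rw [map_zero]; rfl

lemma blk_sum (α : Fin n × ℕ) {κ : Type} (S : Finset κ) (f : κ → ellp p) :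
    blk B α (∑ j ∈ S, f j) = ∑ j ∈ S, blk B α (f j) := by
  classical
  induction S using Finset.induction_on with
  | empty => simp [blk_zero]
  | insert a S ha ih => rw [Finset.sum_insert ha, Finset.sum_insert ha, blk_add, ih]

lemma norm_blk_le (hp : p ≠ 0) {b : ℝ} (hb : ∀ i, ‖B i‖ ≤ b) (α : Fin n × ℕ) (x : ellp p) :
    ‖blk B α x‖ ≤ b * ‖x‖ := by
  unfold blk
  refine (lp.norm_apply_le_norm hp _ _).trans ?_
  refine ((B α.1).le_opNorm x).trans ?_
  have := hb α.1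
  gcongr

/-- `α` sees the coordinate `j` -/
def Big (η : ℝ) (α : Fin n × ℕ) (j : ℕ) : Prop := η < ‖blk B α (ev p j)‖

/-- the number of blocks that see a coordinate -/
lemma card_alpha (hP : 1 < p.toReal) {b : ℝ} (_hb1 : 0 ≤ b) (hb : ∀ i, ‖B i‖ ≤ b) {η : ℝ} (hη : 0 < η)
    (j : ℕ) (F : Finset (Fin n × ℕ)) (hF : ∀ α ∈ F, Big B η α j) :
    (F.card : ℝ) ≤ n * (b / η) ^ p.toReal := by
  classical
  have h1 : F.card ≤ ∑ i : Fin n, (F.filter (fun α => α.1 = i)).card := by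
    rw [← Finset.card_eq_sum_card_fiberwise]
    intro α _
    simp
  have h2 : ∀ i : Fin n, ((F.filter (fun α => α.1 = i)).card : ℝ) ≤ (b / η) ^ p.toReal := by
    intro i
    have h3 : (F.filter (fun α => α.1 = i)).card = ((F.filter (fun α => α.1 = i)).image Prod.snd).card := by
      rw [Finset.card_image_of_injOn]
      rintro ⟨a, a'⟩ ha ⟨c, c'⟩ hc h
      simp only [Finset.coe_filter, Set.mem_ofPred_eq] at ha hc
      obtain ⟨-, rfl⟩ := ha
      obtain ⟨-, rfl⟩ := hc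
      simp only at h
      rw [h]
    rw [h3]
    have hp0 : 0 < p.toReal := by linarith
    refine (card_big hp0 (B i (ev p j)) hη _ ?_).trans ?_
    · intro m hm
      rw [Finset.mem_image] at hm
      obtain ⟨⟨a, a'⟩, hα, rfl⟩ := hm
      rw [Finset.mem_filter] at hα
      obtain ⟨hα1, hα2⟩ := hα
      simp only at hα2
      subst hα2
      exact hF _ hα1
    · have h4 : ‖B i (ev p j)‖ ≤ b := by
        have := (B i).le_opNorm (ev p j)
        rw [norm_ev (p_pos hP), mul_one] at this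
        exact this.trans (hb i)
      gcongr
  calc (F.card : ℝ) ≤ ((∑ i : Fin n, (F.filter (fun α => α.1 = i)).card : ℕ) : ℝ) := by exact_mod_cast h1
    _ = ∑ i : Fin n, ((F.filter (fun α => α.1 = i)).card : ℝ) := by push_cast; rfl
    _ ≤ ∑ _i : Fin n, (b / η) ^ p.toReal := Finset.sum_le_sum fun i _ => h2 i
    _ = n * (b / η) ^ p.toReal := by simp

/-- finiteness of the set of blocks that see a coordinate -/
lemma finite_alpha (hP : 1 < p.toReal) {b : ℝ} (hb1 : 0 ≤ b) (hb : ∀ i, ‖B i‖ ≤ b) {η : ℝ} (hη : 0 < η)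
    (j : ℕ) : {α | Big B η α j}.Finite := by
  by_contra hinf
  obtain ⟨F, hF1, hF2⟩ := (Set.not_finite.1 hinf).exists_subset_card_eq (⌈n * (b / η) ^ p.toReal⌉₊ + 1)
  have := card_alpha B hP hb1 hb hη j F (fun α hα => hF1 hα)
  rw [hF2] at this
  have h2 := Nat.le_ceil (n * (b / η) ^ p.toReal)
  push_cast at this
  linarith

/-- a union bound -/
lemma union_bound (hP : 1 < p.toReal) {b : ℝ} (hb1 : 0 ≤ b) (hb : ∀ i, ‖B i‖ ≤ b) {η : ℝ}
    (hη : 0 < η) {N : ℕ} (J : Finset ℕ) (hJ : J.card ≤ N) (S : Finset ℕ) {h : ℝ} (h0 : 0 ≤ h)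
    (R : (Fin n × ℕ) → ℕ → Prop)
    (hR : ∀ α (S' : Finset ℕ), (∀ j ∈ S', R α j) → (S'.card : ℝ) ≤ h)
    (hS : ∀ j ∈ S, ∃ α, (∃ i ∈ J, Big B η α i) ∧ R α j) :
    (S.card : ℝ) ≤ N * (n * (b / η) ^ p.toReal) * h := by
  classical
  let F : Finset (Fin n × ℕ) := J.biUnion (fun i => (finite_alpha B hP hb1 hb hη i).toFinset)
  have hF : (F.card : ℝ) ≤ N * (n * (b / η) ^ p.toReal) := by
    have h1 : F.card ≤ ∑ i ∈ J, ((finite_alpha B hP hb1 hb hη i).toFinset).card := Finset.card_biUnion_le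
    have h2 : ∀ i ∈ J, (((finite_alpha B hP hb1 hb hη i).toFinset).card : ℝ) ≤ n * (b / η) ^ p.toReal := by
      intro i _
      refine card_alpha B hP hb1 hb hη i _ ?_
      intro α hα
      simpa using hα
    calc (F.card : ℝ) ≤ ((∑ i ∈ J, ((finite_alpha B hP hb1 hb hη i).toFinset).card : ℕ) : ℝ) := by
          exact_mod_cast h1
      _ = ∑ i ∈ J, (((finite_alpha B hP hb1 hb hη i).toFinset).card : ℝ) := by push_cast; rfl
      _ ≤ ∑ _i ∈ J, (n * (b / η) ^ p.toReal) := Finset.sum_le_sum h2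
      _ = J.card * (n * (b / η) ^ p.toReal) := by simp
      _ ≤ _ := by
          have : (J.card : ℝ) ≤ N := by exact_mod_cast hJ
          have h3 : 0 ≤ (n : ℝ) * (b / η) ^ p.toReal := by positivity
          gcongr
  have hSsub : S ⊆ F.biUnion (fun α => S.filter (fun j => R α j)) := by
    intro j hj
    obtain ⟨α, ⟨i, hi, hbig⟩, hRj⟩ := hS j hj
    rw [Finset.mem_biUnion]
    refine ⟨α, ?_, Finset.mem_filter.2 ⟨hj, hRj⟩⟩
    rw [Finset.mem_biUnion]
    exact ⟨i, hi, by simpa using hbig⟩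
  calc (S.card : ℝ) ≤ ((∑ α ∈ F, (S.filter (fun j => R α j)).card : ℕ) : ℝ) := by
        exact_mod_cast (Finset.card_le_card hSsub).trans Finset.card_biUnion_le
    _ = ∑ α ∈ F, ((S.filter (fun j => R α j)).card : ℝ) := by push_cast; rfl
    _ ≤ ∑ _α ∈ F, h := by
        apply Finset.sum_le_sum
        intro α _
        exact hR α _ (fun j hj => (Finset.mem_filter.1 hj).2)
    _ = F.card * h := by simp
    _ ≤ _ := by gcongr

end

end Q261.FS
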