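import Pool.Agent.Q261.FS.Path2

namespace Q261.FS

open scoped ENNReal Topology RealInnerProductSpace
open Filter

variable {p : ℝ≥0∞} [Fact (1 ≤ p)]

lemma norm_K_le {k : ℕ → ℕ} {K : domK p →L[ℝ] codK k} (hK : IsDiagK K) (y : domK p) {C : ℝ}
    (hC : 0 ≤ C) (h : ∀ m, ‖y m‖ ≤ C) : ‖K y‖ ≤ 2 * C := by
  obtain ⟨Kn, h1, h2⟩ := hK
  show ‖(K y : lp (fun n : ℕ => Fin (k n) → ℝ) ∞)‖ ≤ 2 * C
  apply lp.norm_le_of_forall_le (by positivity)
  intro m
  rw [h2]
  refine (h1 m _).2.trans ?_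
  have := h m
  linarith

/-- uniform version of the two path lemmas -/
lemma path_all (hP : 1 < p.toReal) (hP2 : p.toReal ≠ 2) {n : ℕ}
    (B : Fin n → ellp p →L[ℝ] domK p) {b : ℝ} (hb0 : 0 ≤ b) (hb : ∀ i, ‖B i‖ ≤ b) :
    ∃ D : ℕ → ℝ, Tendsto (fun N : ℕ => (N : ℝ) ^ (-(1 / p.toReal)) * D N) atTop (𝓝 0) ∧
      (∀ N, 0 ≤ D N) ∧ ∀ᶠ N : ℕ in atTop, ∃ v, valid N v ∧ ∀ α : Fin n × ℕ,
        ‖blk B α (∑ s ∈ Finset.range N, ev p (nd N v s))‖ ≤ D N := by
  have hp0 : 0 < 1 / p.toReal := by positivity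
  have t1 : Tendsto (fun N : ℕ => (N : ℝ) ^ (-(1 / p.toReal))) atTop (𝓝 0) :=
    (tendsto_rpow_neg_atTop hp0).comp tendsto_natCast_atTop_atTop
  rcases lt_or_gt_of_ne hP2 with h | h
  · refine ⟨fun N => 1 + Real.sqrt (N * (b ^ 2 + 1)), ?_, fun N => by positivity,
      path_lt B hP hb0 hb⟩
    have hθ : 0 < 1 / p.toReal - 1 / 2 := by
      have : 1 / 2 < 1 / p.toReal := by
        apply one_div_lt_one_div_of_lt (by linarith) h
      linarith
    have t2 : Tendsto (fun N : ℕ => (N : ℝ) ^ (-(1 / p.toReal - 1 / 2))) atTop (𝓝 0) :=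
      (tendsto_rpow_neg_atTop hθ).comp tendsto_natCast_atTop_atTop
    have t3 : Tendsto (fun N : ℕ => (N : ℝ) ^ (-(1 / p.toReal)) +
        (N : ℝ) ^ (-(1 / p.toReal - 1 / 2)) * Real.sqrt (b ^ 2 + 1)) atTop (𝓝 0) := by
      have := t1.add (t2.mul_const (Real.sqrt (b ^ 2 + 1)))
      simpa using this
    refine t3.congr' ?_
    filter_upwards [eventually_ge_atTop 1] with N hN
    have hN0 : (0 : ℝ) < N := by exact_mod_cast hN
    have e1 : Real.sqrt (N * (b ^ 2 + 1)) = (N : ℝ) ^ (1 / 2 : ℝ) * Real.sqrt (b ^ 2 + 1) := by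
      rw [Real.sqrt_mul hN0.le, Real.sqrt_eq_rpow (N : ℝ)]
    rw [e1, mul_add, mul_one, ← mul_assoc, ← Real.rpow_add hN0]
    congr 3
    ring
  · refine ⟨fun _ => b + 1, ?_, fun _ => by positivity, path_gt B h hb0 hb⟩
    have := t1.mul_const (b + 1)
    simpa using this

lemma exists_close {X Y : Type} [NormedAddCommGroup X] [NormedSpace ℝ X]
    [NormedAddCommGroup Y] [NormedSpace ℝ Y] {S : Set (X →L[ℝ] Y)} {T : X →L[ℝ] Y}
    (h : T ∈ closure S) : ∃ R ∈ S, ‖T - R‖ < 1 / 4 := by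
  obtain ⟨R, hR, hd⟩ := Metric.mem_closure_iff.1 h (1 / 4) (by norm_num)
  exact ⟨R, hR, by rwa [dist_eq_norm] at hd⟩

lemma norm_le_of_close {X Y : Type} [NormedAddCommGroup X] [NormedSpace ℝ X]
    [NormedAddCommGroup Y] [NormedSpace ℝ Y] (T R : X →L[ℝ] Y) (x : X) :
    ‖T x‖ ≤ ‖T - R‖ * ‖x‖ + ‖R x‖ := by
  have h4 : T x = (T - R) x + R x := by
    rw [_root_.sub_apply, sub_add_cancel]
  calc ‖T x‖ = ‖(T - R) x + R x‖ := by rw [← h4]
    _ ≤ ‖(T - R) x‖ + ‖R x‖ := norm_add_le _ _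
    _ ≤ _ := by
      have := (T - R).le_opNorm x
      linarith

lemma norm_sum_comp_le {X V W Y : Type} [NormedAddCommGroup X] [NormedSpace ℝ X]
    [NormedAddCommGroup V] [NormedSpace ℝ V] [NormedAddCommGroup W] [NormedSpace ℝ W]
    [NormedAddCommGroup Y] [NormedSpace ℝ Y] {n : ℕ} (K : V →L[ℝ] W) (A : Fin n → W →L[ℝ] Y)
    (B : Fin n → X →L[ℝ] V) (x : X) {C : ℝ} (h : ∀ i, ‖K (B i x)‖ ≤ C) :
    ‖(∑ i, (A i).comp (K.comp (B i))) x‖ ≤ (∑ i, ‖A i‖) * C := by
  rw [_root_.sum_apply]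
  refine (norm_sum_le _ _).trans ?_
  rw [Finset.sum_mul]
  apply Finset.sum_le_sum
  intro i _
  rw [ContinuousLinearMap.comp_apply, ContinuousLinearMap.comp_apply]
  refine ((A i).le_opNorm _).trans ?_
  have := h i
  gcongr

theorem treeOp_notin (hP : 1 < p.toReal) (hP2 : p.toReal ≠ 2) {k : ℕ → ℕ}
    {K : domK p →L[ℝ] codK k} (hK : IsDiagK K) : treeOp hP ∉ idealGen K (ellp p) c0 := by
  intro hmem
  unfold idealGen at hmem
  obtain ⟨R, ⟨n, A, B, hR⟩, hdist⟩ := exists_close hmem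
  have hp0 : 0 < p.toReal := by linarith
  -- bounds
  have hb0 : 0 ≤ ∑ i, ‖B i‖ := Finset.sum_nonneg fun i _ => norm_nonneg _
  have hb : ∀ i, ‖B i‖ ≤ ∑ i, ‖B i‖ := fun i =>
    Finset.single_le_sum (f := fun i => ‖B i‖) (fun i _ => norm_nonneg _) (Finset.mem_univ i)
  obtain ⟨D, hD1, hD0, hD2⟩ := path_all hP hP2 B hb0 hb
  set a : ℝ := ∑ i, ‖A i‖ with ha
  have ha0 : 0 ≤ a := Finset.sum_nonneg fun i _ => (A i).opNorm_nonneg
  have hlim : Tendsto (fun N : ℕ => a * (2 * ((N : ℝ) ^ (-(1 / p.toReal)) * D N))) atTop (𝓝 0) := by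
    have := (hD1.const_mul 2).const_mul a
    simpa using this
  have hev := hlim.eventually (gt_mem_nhds (show (0 : ℝ) < 3 / 4 by norm_num))
  obtain ⟨N, hN1, ⟨v, hv, hv2⟩, hN2⟩ := ((eventually_ge_atTop 1).and (hD2.and hev)).exists
  have hN0 : (0 : ℝ) < N := by exact_mod_cast hN1
  -- the vector
  set X : ellp p := ∑ s ∈ Finset.range N, ev p (nd N v s) with hX
  set c : ℝ := (N : ℝ) ^ (-(1 / p.toReal)) with hc
  have hc0 : 0 < c := Real.rpow_pos_of_pos hN0 _
  set x : ellp p := c • X with hx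
  have hinj : Set.InjOn (nd N v) (Finset.range N : Finset ℕ) := by
    intro s hs t ht h
    simp only [Finset.coe_range, Set.mem_Iio] at hs ht
    exact nd_inj (by rw [hv.2.1]; exact hs) (by rw [hv.2.1]; exact ht) h
  have hXnorm : ‖X‖ ≤ (N : ℝ) ^ (1 / p.toReal) := by
    have h1 := norm_signed (p := p) hp0 ((Finset.range N).image (nd N v)) (fun _ => 1)
      (fun _ => Or.inl rfl)
    simp only [one_smul] at h1
    rw [Finset.sum_image hinj, Finset.card_image_of_injOn hinj, Finset.card_range] at h1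
    exact h1
  have hxnorm : ‖x‖ ≤ 1 := by
    rw [hx, norm_smul, Real.norm_of_nonneg hc0.le]
    calc c * ‖X‖ ≤ c * (N : ℝ) ^ (1 / p.toReal) := by gcongr
      _ = 1 := by rw [hc, ← Real.rpow_add hN0]; simp
  -- the value of the tree operator
  have hXval : ∀ s < N, (X : ℕ → ℝ) (nd N v s) = 1 := by
    intro s hs
    rw [hX, lp.coeFn_sum, Finset.sum_apply]
    simp only [ev_apply]
    rw [Finset.sum_eq_single s]
    · simp
    · intro t ht hts
      rw [if_neg]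
      intro h
      exact hts (hinj (by simpa using hs) (by simpa using ht) h).symm
    · intro h; simp at h; omega
  have hval : tval p.toReal x (enc (N, v)) = 1 := by
    have h1 : (x : ℕ → ℝ) = c • (X : ℕ → ℝ) := by rw [hx, lp.coeFn_smul]
    rw [h1, tval_smul]
    unfold tval
    rw [Equiv.symm_apply_apply]
    simp only
    rw [if_pos hv]
    unfold phi
    rw [Finset.sum_congr rfl (fun s hs => hXval s (Finset.mem_range.1 hs)), Finset.sum_const,
      Finset.card_range, nsmul_eq_mul, mul_one, hc]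
    rw [← mul_assoc, ← Real.rpow_add hN0]
    nth_rewrite 2 [← Real.rpow_one (N : ℝ)]
    rw [← Real.rpow_add hN0]
    have : -(1 / p.toReal) + (1 / p.toReal - 1) + 1 = 0 := by ring
    rw [this, Real.rpow_zero]
  have h1 : 1 ≤ ‖treeOp hP x‖ := by
    have := le_norm_treeOp hP x (enc (N, v))
    rwa [hval, abs_one] at this
  -- the approximating operator
  have h2 : ‖R x‖ ≤ a * (2 * (c * D N)) := by
    rw [hR]
    apply norm_sum_comp_le K A B x
    intro i
    apply norm_K_le hK _ (mul_nonneg hc0.le (hD0 N))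
    intro m
    have h3 := hv2 (i, m)
    have h4 : (B i x : domK p) m = c • blk B (i, m) X := by
      have : blk B (i, m) x = c • blk B (i, m) X := by rw [hx, blk_smul]
      exact this
    rw [h4, norm_smul, Real.norm_of_nonneg hc0.le]
    gcongr
  have h3 := norm_le_of_close (treeOp hP) R x
  have h6 : ‖treeOp hP - R‖ * ‖x‖ ≤ 1 / 4 * 1 := by
    apply mul_le_mul hdist.le hxnorm (norm_nonneg _) (by norm_num)
  linarith

end Q261.FS
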