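import Pool.Agent.Q261.FS.Defs

namespace Q261.FS

open scoped ENNReal Topology
open Filter

/-- codes of nodes `(N, v)` -/
noncomputable def enc : (ℕ × List ℕ) ≃ ℕ := Denumerable.eqv (ℕ × List ℕ)

/-- the node of length `s + 1` on the word `v` in the tree number `N` -/
noncomputable def nd (N : ℕ) (v : List ℕ) (s : ℕ) : ℕ := enc (N, v.take (s + 1))

/-- branches of the tree number `N` -/
def valid (N : ℕ) (w : List ℕ) : Prop := 1 ≤ N ∧ w.length = N ∧ ∀ a ∈ w, a < 2 ^ N

/-- partial sum along a word -/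
noncomputable def phi (P : ℝ) (N : ℕ) (x : ℕ → ℝ) (v : List ℕ) (i : ℕ) : ℝ :=
  (N : ℝ) ^ (1 / P - 1) * ∑ s ∈ Finset.range i, x (nd N v s)

open Classical in
/-- the values of the tree operator -/
noncomputable def tval (P : ℝ) (x : ℕ → ℝ) (k : ℕ) : ℝ :=
  if valid (enc.symm k).1 (enc.symm k).2 then
    phi P (enc.symm k).1 x (enc.symm k).2 (enc.symm k).1 else 0

lemma nd_inj {N : ℕ} {v : List ℕ} {s s' : ℕ} (hs : s < v.length) (hs' : s' < v.length)
    (h : nd N v s = nd N v s') : s = s' := by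
  have h1 := enc.injective h
  simp only [Prod.mk.injEq, true_and] at h1
  have h2 := congrArg List.length h1
  simp only [List.length_take] at h2
  omega

/-- Hölder on a segment -/
lemma seg_le {P : ℝ} (hP : 1 < P) {N : ℕ} (S : Finset ℕ) (hS : S.card ≤ N) (y : ℕ → ℝ)
    (hy : ∀ s, 0 ≤ y s) :
    (N : ℝ) ^ (1 / P - 1) * ∑ s ∈ S, y s ≤ (∑ s ∈ S, y s ^ P) ^ (1 / P) := by
  have hPQ : P.HolderConjugate (Real.conjExponent P) := Real.HolderConjugate.conjExponent hP
  have h1 := Real.inner_le_Lp_mul_Lq S (fun s => y s) (fun _ => (1 : ℝ)) hPQ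
  simp only [mul_one, abs_one, Real.one_rpow, Finset.sum_const, nsmul_eq_mul] at h1
  have h2 : ∀ s, |y s| = y s := fun s => abs_of_nonneg (hy s)
  simp only [h2] at h1
  have hq : 1 / Real.conjExponent P = 1 - 1 / P := by
    have := hPQ.inv_add_inv_eq_one
    rw [one_div, one_div]; linarith
  rw [hq] at h1
  have hp1 : 1 / P < 1 := by rw [div_lt_one (by linarith)]; exact hP
  have hA : 0 ≤ (∑ s ∈ S, y s ^ P) ^ (1 / P) := by
    apply Real.rpow_nonneg
    exact Finset.sum_nonneg fun s _ => Real.rpow_nonneg (hy s) _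
  rcases Nat.eq_zero_or_pos N with rfl | hN
  · have : S = ∅ := Finset.card_eq_zero.1 (by omega)
    subst this
    have : (0 : ℝ) ≤ (0 : ℝ) ^ (1 / P) := Real.rpow_nonneg le_rfl _
    simpa using this
  have hN' : (0 : ℝ) < N := by exact_mod_cast hN
  calc (N : ℝ) ^ (1 / P - 1) * ∑ s ∈ S, y s
      ≤ (N : ℝ) ^ (1 / P - 1) * ((∑ s ∈ S, y s ^ P) ^ (1 / P) * (S.card : ℝ) ^ (1 - 1 / P)) := by
        gcongr
    _ ≤ (N : ℝ) ^ (1 / P - 1) * ((∑ s ∈ S, y s ^ P) ^ (1 / P) * (N : ℝ) ^ (1 - 1 / P)) := by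
        gcongr
    _ = ((N : ℝ) ^ (1 / P - 1) * (N : ℝ) ^ (1 - 1 / P)) * (∑ s ∈ S, y s ^ P) ^ (1 / P) := by ring
    _ = (∑ s ∈ S, y s ^ P) ^ (1 / P) := by
        rw [← Real.rpow_add hN']
        simp

variable {p : ℝ≥0∞} [Fact (1 ≤ p)]

/-- the `P`-mass of finitely many different coordinates -/
lemma mass_le (hp0 : 0 < p.toReal) (x : ellp p) (S : Finset ℕ) (f : ℕ → ℕ)
    (hf : Set.InjOn f S) : ∑ s ∈ S, |x (f s)| ^ p.toReal ≤ ‖x‖ ^ p.toReal := by
  have h1 := lp.sum_rpow_le_norm_rpow hp0 x (S.image f)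
  rw [Finset.sum_image hf] at h1
  simpa [Real.norm_eq_abs] using h1

lemma abs_phi_le (P : ℝ) (N : ℕ) (x : ℕ → ℝ) (v : List ℕ) (i : ℕ) :
    |phi P N x v i| ≤ (N : ℝ) ^ (1 / P - 1) * ∑ s ∈ Finset.range i, |x (nd N v s)| := by
  unfold phi
  rw [abs_mul, abs_of_nonneg (Real.rpow_nonneg (Nat.cast_nonneg N) _)]
  gcongr
  exact Finset.abs_sum_le_sum_abs _ _

lemma phi_le_norm (hP : 1 < p.toReal) {N : ℕ} {v : List ℕ} {i : ℕ} (hi : i ≤ v.length)
    (hN : i ≤ N) (x : ellp p) : |phi p.toReal N x v i| ≤ ‖x‖ := by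
  have hp0 : 0 < p.toReal := by linarith
  refine (abs_phi_le _ _ _ _ _).trans ?_
  refine (seg_le hP (Finset.range i) (by simpa using hN) (fun s => |x (nd N v s)|)
    (fun s => abs_nonneg _)).trans ?_
  have h1 := mass_le hp0 x (Finset.range i) (nd N v) (by
    intro a ha b hb h
    simp only [Finset.coe_range, Set.mem_Iio] at ha hb
    exact nd_inj (by omega) (by omega) h)
  calc _ ≤ (‖x‖ ^ p.toReal) ^ (1 / p.toReal) := by
        gcongr
    _ = ‖x‖ := by
        rw [← Real.rpow_mul (norm_nonneg _), mul_one_div_cancel hp0.ne', Real.rpow_one]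

lemma tval_le (hP : 1 < p.toReal) (x : ellp p) (k : ℕ) : |tval p.toReal x k| ≤ ‖x‖ := by
  unfold tval
  split_ifs with h
  · obtain ⟨h1, h2, h3⟩ := h
    exact phi_le_norm hP (by rw [h2]) le_rfl x
  · simp

lemma finite_words (N M : ℕ) : {w : List ℕ | w.length = N ∧ ∀ a ∈ w, a < M}.Finite := by
  have h1 : {w : List ℕ | w.length = N ∧ ∀ a ∈ w, a < M} ⊆
      Set.range (fun f : Fin N → Fin M => List.ofFn (fun i => ((f i : Fin M) : ℕ))) := by
    rintro w ⟨hw1, hw2⟩
    subst hw1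
    refine ⟨fun i => ⟨w.get i, hw2 _ (List.get_mem _ _)⟩, ?_⟩
    simp
  exact (Set.finite_range _).subset h1

/-- each coordinate occurs in finitely many branch values -/
lemma finite_branches (j : ℕ) :
    {k : ℕ | valid (enc.symm k).1 (enc.symm k).2 ∧
      ∃ s < (enc.symm k).1, nd (enc.symm k).1 (enc.symm k).2 s = j}.Finite := by
  have h1 : {k : ℕ | valid (enc.symm k).1 (enc.symm k).2 ∧
      ∃ s < (enc.symm k).1, nd (enc.symm k).1 (enc.symm k).2 s = j} ⊆
      (fun w => enc ((enc.symm j).1, w)) ''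
        {w : List ℕ | w.length = (enc.symm j).1 ∧ ∀ a ∈ w, a < 2 ^ (enc.symm j).1} := by
    rintro k ⟨⟨h1, h2, h3⟩, s, hs, h4⟩
    have h5 : (enc.symm k).1 = (enc.symm j).1 := by
      rw [← h4, nd, Equiv.symm_apply_apply]
    refine ⟨(enc.symm k).2, ⟨by rw [h2, h5], fun a ha => by rw [← h5]; exact h3 a ha⟩, ?_⟩
    simp only
    rw [← h5]
    exact enc.apply_symm_apply k
  exact ((finite_words _ _).image _).subset h1

lemma tval_tendsto (hP : 1 < p.toReal) (x : ellp p) :
    Tendsto (fun k => ‖tval p.toReal x k‖) cofinite (𝓝 0) := by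
  have hp0 : 0 < p.toReal := by linarith
  rw [Metric.tendsto_nhds]
  intro ε hε
  have hsum : Summable (fun i => ‖x i‖ ^ p.toReal) := (lp.memℓp x).summable hp0
  have hεp : 0 < ε ^ p.toReal := Real.rpow_pos_of_pos hε _
  obtain ⟨S, hS⟩ := summable_iff_vanishing_norm.1 hsum (ε ^ p.toReal) hεp
  have hfin : (⋃ j ∈ (S : Set ℕ), {k : ℕ | valid (enc.symm k).1 (enc.symm k).2 ∧
      ∃ s < (enc.symm k).1, nd (enc.symm k).1 (enc.symm k).2 s = j}).Finite :=
    S.finite_toSet.biUnion fun j _ => finite_branches j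
  refine hfin.subset ?_
  intro k hk
  by_contra hk2
  apply hk
  simp only [Set.mem_iUnion, Set.mem_ofPred_eq, not_exists, not_and] at hk2
  show dist ‖tval p.toReal x k‖ 0 < ε
  rw [Real.dist_0_eq_abs, abs_norm, Real.norm_eq_abs]
  unfold tval
  split_ifs with hv
  · have hv' := hv
    obtain ⟨h1, h2, h3⟩ := hv
    generalize (enc.symm k).1 = N at *
    generalize (enc.symm k).2 = w at *
    have hinj : Set.InjOn (nd N w) (Finset.range N : Finset ℕ) := by
      intro a ha b hb h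
      simp only [Finset.coe_range, Set.mem_Iio] at ha hb
      exact nd_inj (by omega) (by omega) h
    have hdisj : Disjoint ((Finset.range N).image (nd N w)) S := by
      rw [Finset.disjoint_left]
      intro j hj hjS
      rw [Finset.mem_image] at hj
      obtain ⟨s, hs, rfl⟩ := hj
      exact hk2 _ hjS hv' s (by simpa using hs) rfl
    have h4 := hS _ hdisj
    rw [Finset.sum_image hinj] at h4
    have h5 : 0 ≤ ∑ s ∈ Finset.range N, ‖x (nd N w s)‖ ^ p.toReal :=
      Finset.sum_nonneg fun s _ => Real.rpow_nonneg (norm_nonneg _) _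
    rw [Real.norm_eq_abs, abs_of_nonneg h5] at h4
    refine lt_of_le_of_lt ((abs_phi_le _ _ _ _ _).trans
      (seg_le hP (Finset.range N) (by simp) (fun s => |x (nd N w s)|)
        (fun s => abs_nonneg _))) ?_
    calc (∑ s ∈ Finset.range N, |x (nd N w s)| ^ p.toReal) ^ (1 / p.toReal)
        < (ε ^ p.toReal) ^ (1 / p.toReal) := by
          apply Real.rpow_lt_rpow h5 h4
          positivity
      _ = ε := by
          rw [← Real.rpow_mul hε.le, mul_one_div_cancel hp0.ne', Real.rpow_one]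
  · simpa using hε

lemma tval_add (P : ℝ) (x y : ℕ → ℝ) (k : ℕ) :
    tval P (x + y) k = tval P x k + tval P y k := by
  unfold tval phi
  split_ifs
  · simp only [Pi.add_apply, Finset.sum_add_distrib]; ring
  · simp

lemma tval_smul (P : ℝ) (c : ℝ) (x : ℕ → ℝ) (k : ℕ) :
    tval P (c • x) k = c * tval P x k := by
  unfold tval phi
  split_ifs
  · simp only [Pi.smul_apply, smul_eq_mul, ← Finset.mul_sum]; ring
  · simp

/-- the tree operator `ℓ_p → c₀` -/
noncomputable def treeOp (hP : 1 < p.toReal) : ellp p →L[ℝ] c0 :=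
  LinearMap.mkContinuous
    { toFun := fun x => ⟨⟨fun k => tval p.toReal x k, memℓp_infty ⟨‖x‖, by
          rintro _ ⟨k, rfl⟩
          exact tval_le hP x k⟩⟩, tval_tendsto hP x⟩
      map_add' := by
        intro x y
        apply Subtype.ext
        apply lp.ext
        funext k
        show tval p.toReal (⇑(x + y)) k = tval p.toReal x k + tval p.toReal y k
        rw [lp.coeFn_add, tval_add]
      map_smul' := by
        intro c x
        apply Subtype.ext
        apply lp.ext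
        funext k
        show tval p.toReal (⇑(c • x)) k = c * tval p.toReal x k
        rw [lp.coeFn_smul, tval_smul] } 1 (by
    intro x
    rw [one_mul]
    show ‖(⟨fun k => tval p.toReal x k, _⟩ : lp (fun _ : ℕ => ℝ) ∞)‖ ≤ ‖x‖
    apply lp.norm_le_of_forall_le (norm_nonneg _)
    intro k
    exact tval_le hP x k)

lemma treeOp_apply (hP : 1 < p.toReal) (x : ellp p) (k : ℕ) :
    (treeOp hP x : lp (fun _ : ℕ => ℝ) ∞) k = tval p.toReal x k := rfl

lemma norm_treeOp_le (hP : 1 < p.toReal) (x : ellp p) {C : ℝ} (hC : 0 ≤ C)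
    (h : ∀ k, |tval p.toReal x k| ≤ C) : ‖treeOp hP x‖ ≤ C := by
  show ‖(treeOp hP x : lp (fun _ : ℕ => ℝ) ∞)‖ ≤ C
  apply lp.norm_le_of_forall_le hC
  intro k
  exact h k

lemma le_norm_treeOp (hP : 1 < p.toReal) (x : ellp p) (k : ℕ) :
    |tval p.toReal x k| ≤ ‖treeOp hP x‖ := by
  have := lp.norm_apply_le_norm (p := ∞) (by simp) (treeOp hP x : lp (fun _ : ℕ => ℝ) ∞) k
  exact this

end Q261.FS
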