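import Pool.Agent.Q261.FS.NotIn

namespace Q261.FS

open scoped ENNReal Topology RealInnerProductSpace
open Filter

variable {p : ℝ≥0∞} [Fact (1 ≤ p)]

lemma rpow_solve {c u w θ : ℝ} (hc : 0 ≤ c) (hu : 0 < u) (hw : 0 ≤ w) (hθ : θ < 1)
    (h : c * u ≤ w * c ^ θ) : c ≤ (w / u) ^ (1 / (1 - θ)) := by
  rcases hc.eq_or_lt with rfl | hc
  · positivity
  have h1 : c ^ (1 - θ) ≤ w / u := by
    rw [Real.rpow_sub hc, Real.rpow_one, div_le_div_iff₀ (Real.rpow_pos_of_pos hc _) hu]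
    exact h
  have h2 : 0 < 1 - θ := by linarith
  calc c = (c ^ (1 - θ)) ^ (1 / (1 - θ)) := by
        rw [← Real.rpow_mul hc.le, mul_one_div_cancel h2.ne', Real.rpow_one]
    _ ≤ (w / u) ^ (1 / (1 - θ)) := by
        gcongr

section

variable {n : ℕ} (B : Fin n → ellp p →L[ℝ] domK p)

lemma norm_blk_signed (hP : 1 < p.toReal) {b : ℝ} (hb0 : 0 ≤ b) (hb : ∀ i, ‖B i‖ ≤ b)
    (α : Fin n × ℕ) (S : Finset ℕ) (ε : ℕ → ℝ) (hε : ∀ j, ε j = 1 ∨ ε j = -1) :
    ‖∑ j ∈ S, ε j • blk B α (ev p j)‖ ≤ b * (S.card : ℝ) ^ (1 / p.toReal) := by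
  have h1 : ∑ j ∈ S, ε j • blk B α (ev p j) = blk B α (∑ j ∈ S, ε j • ev p j) := by
    rw [blk_sum]
    apply Finset.sum_congr rfl
    intro j _
    rw [blk_smul]
  rw [h1]
  refine (norm_blk_le B (p_pos hP).ne' hb α _).trans ?_
  have := norm_signed (p := p) (by linarith) S ε hε
  gcongr

/-- `p > 2`: few coordinates are seen by a block -/
lemma card_big_gt (hP : 2 < p.toReal) {b : ℝ} (hb0 : 0 ≤ b) (hb : ∀ i, ‖B i‖ ≤ b) {η : ℝ}
    (hη : 0 < η) (α : Fin n × ℕ) (S : Finset ℕ) (hS : ∀ j ∈ S, Big B η α j) :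
    (S.card : ℝ) ≤ (b ^ 2 / η ^ 2) ^ (1 / (1 - 2 / p.toReal)) := by
  obtain ⟨ε, hε, h1⟩ := exists_signs S (fun j => blk B α (ev p j))
  have h2 := norm_blk_signed B (by linarith) hb0 hb α S ε hε
  have h3 : (S.card : ℝ) * η ^ 2 ≤ ∑ j ∈ S, ‖blk B α (ev p j)‖ ^ 2 := by
    rw [← nsmul_eq_mul]
    apply Finset.card_nsmul_le_sum
    intro j hj
    exact pow_le_pow_left₀ hη.le (hS j hj).le 2
  have h4 : (b * (S.card : ℝ) ^ (1 / p.toReal)) ^ 2 = b ^ 2 * (S.card : ℝ) ^ (2 / p.toReal) := by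
    rw [mul_pow, ← Real.rpow_natCast ((S.card : ℝ) ^ (1 / p.toReal)) 2,
      ← Real.rpow_mul (Nat.cast_nonneg _)]
    congr 2
    push_cast
    ring
  apply rpow_solve (Nat.cast_nonneg _) (by positivity) (by positivity)
  · rw [div_lt_one (by linarith)]; exact hP
  · rw [← h4]
    refine h3.trans (h1.trans ?_)
    gcongr

/-- few coordinates have a large inner product with a given one -/
lemma card_inner (hP : 1 < p.toReal) {b : ℝ} (hb0 : 0 ≤ b) (hb : ∀ i, ‖B i‖ ≤ b) {η : ℝ}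
    (hη : 0 < η) (α : Fin n × ℕ) (i : ℕ) (S : Finset ℕ)
    (hS : ∀ j ∈ S, η < |⟪blk B α (ev p j), blk B α (ev p i)⟫|) :
    (S.card : ℝ) ≤ (b ^ 2 / η) ^ (1 / (1 - 1 / p.toReal)) := by
  obtain ⟨ε, hε, h1⟩ := exists_signs_real S (fun j => ⟪blk B α (ev p j), blk B α (ev p i)⟫)
  have h2 := norm_blk_signed B hP hb0 hb α S ε hε
  have h3 : (S.card : ℝ) * η ≤ ∑ j ∈ S, |⟪blk B α (ev p j), blk B α (ev p i)⟫| := by
    rw [← nsmul_eq_mul]
    apply Finset.card_nsmul_le_sum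
    intro j hj
    exact (hS j hj).le
  have h5 : ‖blk B α (ev p i)‖ ≤ b := by
    have := norm_blk_le B (p_pos hP).ne' hb α (ev p i)
    rwa [norm_ev (p_pos hP), mul_one] at this
  have h6 : ∑ j ∈ S, ε j * ⟪blk B α (ev p j), blk B α (ev p i)⟫
      ≤ b ^ 2 * (S.card : ℝ) ^ (1 / p.toReal) := by
    have h7 : ∑ j ∈ S, ε j * ⟪blk B α (ev p j), blk B α (ev p i)⟫
        = ⟪∑ j ∈ S, ε j • blk B α (ev p j), blk B α (ev p i)⟫ := by
      rw [sum_inner]
      apply Finset.sum_congr rfl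
      intro j _
      rw [real_inner_smul_left]
    rw [h7]
    calc _ ≤ ‖∑ j ∈ S, ε j • blk B α (ev p j)‖ * ‖blk B α (ev p i)‖ := real_inner_le_norm _ _
      _ ≤ (b * (S.card : ℝ) ^ (1 / p.toReal)) * b := by gcongr
      _ = _ := by ring
  apply rpow_solve (Nat.cast_nonneg _) hη (by positivity)
  · rw [div_lt_one (by linarith)]; exact hP
  · exact h3.trans (h1.le.trans h6)

/-- polynomials are eventually smaller than `2 ^ N` -/
lemma eventually_lt_two_pow (C κ : ℝ) : ∀ᶠ N : ℕ in atTop, C * (N : ℝ) ^ κ < 2 ^ N := by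
  have h1 := isLittleO_rpow_exp_pos_mul_atTop κ (Real.log_pos one_lt_two)
  have h2 : ∀ᶠ x : ℝ in atTop, ‖x ^ κ‖ ≤ (1 / (2 * (|C| + 1))) * ‖Real.exp (Real.log 2 * x)‖ :=
    h1.def (by positivity)
  filter_upwards [tendsto_natCast_atTop_atTop.eventually h2, eventually_ge_atTop 1] with N hN hN1
  have e1 : Real.exp (Real.log 2 * (N : ℝ)) = 2 ^ N := by
    rw [mul_comm, Real.exp_nat_mul, Real.exp_log two_pos]
  rw [e1, Real.norm_of_nonneg (by positivity), Real.norm_of_nonneg (by positivity)] at hN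
  have hN0 : (0 : ℝ) < 2 ^ N := by positivity
  calc C * (N : ℝ) ^ κ ≤ |C| * (N : ℝ) ^ κ := by
        have : 0 ≤ (N : ℝ) ^ κ := by positivity
        exact mul_le_mul_of_nonneg_right (le_abs_self C) this
    _ ≤ |C| * (1 / (2 * (|C| + 1)) * 2 ^ N) := by gcongr
    _ = (|C| / (2 * (|C| + 1))) * 2 ^ N := by ring
    _ < 1 * 2 ^ N := by
        apply mul_lt_mul_of_pos_right _ hN0
        rw [div_lt_one (by positivity)]
        have := abs_nonneg C
        linarith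
    _ = 2 ^ N := one_mul _

end

end Q261.FS
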