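import Pool.Agent.Q261.FS.Path

namespace Q261.FS

open scoped ENNReal Topology RealInnerProductSpace
open Filter

variable {p : ℝ≥0∞} [Fact (1 ≤ p)]

section

variable {n : ℕ} (B : Fin n → ellp p →L[ℝ] domK p)

lemma norm_blk_ev (hP : 1 < p.toReal) {b : ℝ} (hb : ∀ i, ‖B i‖ ≤ b) (α : Fin n × ℕ) (j : ℕ) :
    ‖blk B α (ev p j)‖ ≤ b := by
  have := norm_blk_le B (p_pos hP).ne' hb α (ev p j)
  rwa [norm_ev (p_pos hP), mul_one] at this

/-- `p > 2`: a good branch -/
lemma path_gt (hP : 2 < p.toReal) {b : ℝ} (hb0 : 0 ≤ b) (hb : ∀ i, ‖B i‖ ≤ b) :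
    ∀ᶠ N : ℕ in atTop, ∃ v, valid N v ∧ ∀ α : Fin n × ℕ,
      ‖blk B α (∑ s ∈ Finset.range N, ev p (nd N v s))‖ ≤ b + 1 := by
  classical
  set κ : ℝ := 1 / (1 - 2 / p.toReal) with hκ
  have hev := eventually_lt_two_pow (n * b ^ p.toReal * (b ^ 2) ^ κ) (1 + p.toReal + 2 * κ)
  filter_upwards [hev, eventually_ge_atTop 1] with N hN hN1
  have hN0 : (0 : ℝ) < N := by exact_mod_cast hN1
  set η : ℝ := 1 / N with hη
  have hη0 : 0 < η := by positivity
  have hcount : ((N : ℝ) * (n * (b / η) ^ p.toReal)) * (b ^ 2 / η ^ 2) ^ κ < 2 ^ N := by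
    refine lt_of_eq_of_lt ?_ hN
    have e1 : b / η = b * N := by rw [hη]; field_simp
    have e2 : b ^ 2 / η ^ 2 = b ^ 2 * (N : ℝ) ^ (2 : ℝ) := by
      rw [hη]; rw [Real.rpow_two]; field_simp
    rw [e1, e2, Real.mul_rpow hb0 hN0.le, Real.mul_rpow (by positivity) (by positivity),
      ← Real.rpow_mul hN0.le, Real.rpow_add hN0, Real.rpow_add hN0, Real.rpow_one]
    ring
  obtain ⟨v, hv1, hv2, hv3⟩ := greedy N
    (fun J => {j | ∃ α : Fin n × ℕ, (∃ i ∈ J, Big B η α i) ∧ Big B η α j}) (by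
      intro J hJ S hS
      have h1 := union_bound B (by linarith) hb0 hb hη0 J hJ S (h := (b ^ 2 / η ^ 2) ^ κ)
        (by positivity) (fun α j => Big B η α j)
        (fun α S' hS' => card_big_gt B hP hb0 hb hη0 α S' hS') hS
      have h2 := lt_of_le_of_lt h1 hcount
      exact_mod_cast h2) N le_rfl
  refine ⟨v, ⟨hN1, hv1, hv2⟩, ?_⟩
  intro α
  have hpair : ∀ i s, i < s → s < N → Big B η α (nd N v i) → ¬ Big B η α (nd N v s) := by
    intro i s his hs h1 h2
    apply hv3 s hs
    refine ⟨α, ⟨nd N v i, ?_, h1⟩, h2⟩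
    exact Finset.mem_image_of_mem _ (Finset.mem_range.2 his)
  rw [blk_sum]
  refine (norm_sum_le _ _).trans ?_
  have hNη : (N : ℝ) * η = 1 := by rw [hη]; field_simp
  by_cases hex : ∃ s0 < N, Big B η α (nd N v s0)
  · obtain ⟨s0, hs0, hbig⟩ := hex
    rw [← Finset.add_sum_erase _ _ (Finset.mem_range.2 hs0)]
    have h1 := norm_blk_ev B (by linarith) hb α (nd N v s0)
    have h2 : ∑ s ∈ (Finset.range N).erase s0, ‖blk B α (ev p (nd N v s))‖ ≤
        ∑ _s ∈ (Finset.range N).erase s0, η := by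
      apply Finset.sum_le_sum
      intro s hs
      rw [Finset.mem_erase, Finset.mem_range] at hs
      by_contra hcon
      push Not at hcon
      rcases lt_or_gt_of_ne hs.1 with h | h
      · exact hpair s s0 h hs0 hcon hbig
      · exact hpair s0 s h hs.2 hbig hcon
    have h3 : ∑ _s ∈ (Finset.range N).erase s0, η ≤ 1 := by
      rw [Finset.sum_const, nsmul_eq_mul, ← hNη]
      gcongr
      refine (Finset.card_erase_le).trans ?_
      simp
    linarith
  · push Not at hex
    have h2 : ∑ s ∈ Finset.range N, ‖blk B α (ev p (nd N v s))‖ ≤ ∑ _s ∈ Finset.range N, η := by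
      apply Finset.sum_le_sum
      intro s hs
      exact not_lt.1 (hex s (Finset.mem_range.1 hs))
    rw [Finset.sum_const, nsmul_eq_mul, Finset.card_range, hNη] at h2
    linarith

/-- `p < 2`: a good branch -/
lemma path_lt (hP : 1 < p.toReal) {b : ℝ} (hb0 : 0 ≤ b) (hb : ∀ i, ‖B i‖ ≤ b) :
    ∀ᶠ N : ℕ in atTop, ∃ v, valid N v ∧ ∀ α : Fin n × ℕ,
      ‖blk B α (∑ s ∈ Finset.range N, ev p (nd N v s))‖ ≤ 1 + Real.sqrt (N * (b ^ 2 + 1)) := by
  classical
  set κ : ℝ := 1 / (1 - 1 / p.toReal) with hκ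
  have hev := eventually_lt_two_pow (n * b ^ p.toReal * (b ^ 2) ^ κ) (1 + p.toReal + 1 + κ)
  filter_upwards [hev, eventually_ge_atTop 1] with N hN hN1
  have hN0 : (0 : ℝ) < N := by exact_mod_cast hN1
  set η : ℝ := 1 / N with hη
  have hη0 : 0 < η := by positivity
  have hcount : ((N : ℝ) * (n * (b / η) ^ p.toReal)) * (N * (b ^ 2 / η) ^ κ) < 2 ^ N := by
    refine lt_of_eq_of_lt ?_ hN
    have e1 : b / η = b * N := by rw [hη]; field_simp
    have e2 : b ^ 2 / η = b ^ 2 * (N : ℝ) := by rw [hη]; field_simp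
    rw [e1, e2, Real.mul_rpow hb0 hN0.le, Real.mul_rpow (by positivity) (by positivity),
      Real.rpow_add hN0, Real.rpow_add hN0, Real.rpow_add hN0, Real.rpow_one]
    ring
  obtain ⟨v, hv1, hv2, hv3⟩ := greedy N
    (fun J => {j | ∃ α : Fin n × ℕ, (∃ i ∈ J, Big B η α i) ∧
      ∃ i ∈ J, η < |⟪blk B α (ev p j), blk B α (ev p i)⟫|}) (by
      intro J hJ S hS
      have h1 := union_bound B hP hb0 hb hη0 J hJ S (h := N * (b ^ 2 / η) ^ κ)
        (by positivity) (fun α j => ∃ i ∈ J, η < |⟪blk B α (ev p j), blk B α (ev p i)⟫|)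
        (by
          intro α S' hS'
          have hsub : S' ⊆ J.biUnion (fun i =>
              S'.filter (fun j => η < |⟪blk B α (ev p j), blk B α (ev p i)⟫|)) := by
            intro j hj
            obtain ⟨i, hi, h⟩ := hS' j hj
            exact Finset.mem_biUnion.2 ⟨i, hi, Finset.mem_filter.2 ⟨hj, h⟩⟩
          calc (S'.card : ℝ) ≤ ((∑ i ∈ J, (S'.filter (fun j =>
                η < |⟪blk B α (ev p j), blk B α (ev p i)⟫|)).card : ℕ) : ℝ) := by
                exact_mod_cast (Finset.card_le_card hsub).trans Finset.card_biUnion_le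
            _ = ∑ i ∈ J, ((S'.filter (fun j =>
                η < |⟪blk B α (ev p j), blk B α (ev p i)⟫|)).card : ℝ) := by push_cast; rfl
            _ ≤ ∑ _i ∈ J, (b ^ 2 / η) ^ κ := by
                apply Finset.sum_le_sum
                intro i _
                exact card_inner B hP hb0 hb hη0 α i _ (fun j hj => (Finset.mem_filter.1 hj).2)
            _ = J.card * (b ^ 2 / η) ^ κ := by simp
            _ ≤ N * (b ^ 2 / η) ^ κ := by
                have : (J.card : ℝ) ≤ N := by exact_mod_cast hJ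
                have h3 : 0 ≤ (b ^ 2 / η) ^ κ := by positivity
                gcongr) hS
      have h2 := lt_of_le_of_lt h1 hcount
      exact_mod_cast h2) N le_rfl
  refine ⟨v, ⟨hN1, hv1, hv2⟩, ?_⟩
  intro α
  have hpair : ∀ s0 i s, s0 < s → i < s → s < N → Big B η α (nd N v s0) →
      |⟪blk B α (ev p (nd N v s)), blk B α (ev p (nd N v i))⟫| ≤ η := by
    intro s0 i s h0 his hs h1
    by_contra hcon
    push Not at hcon
    apply hv3 s hs
    exact ⟨α, ⟨nd N v s0, Finset.mem_image_of_mem _ (Finset.mem_range.2 h0), h1⟩,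
      nd N v i, Finset.mem_image_of_mem _ (Finset.mem_range.2 his), hcon⟩
  rw [blk_sum]
  have hNη : (N : ℝ) * η = 1 := by rw [hη]; field_simp
  have hsq : 0 ≤ Real.sqrt (N * (b ^ 2 + 1)) := Real.sqrt_nonneg _
  have hsmall : ∀ m ≤ N, (∀ s < m, ¬ Big B η α (nd N v s)) →
      ‖∑ s ∈ Finset.range m, blk B α (ev p (nd N v s))‖ ≤ 1 := by
    intro m hm hs
    refine (norm_sum_le _ _).trans ?_
    have h2 : ∑ s ∈ Finset.range m, ‖blk B α (ev p (nd N v s))‖ ≤ ∑ _s ∈ Finset.range m, η := by
      apply Finset.sum_le_sum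
      intro s hs'
      exact not_lt.1 (hs s (Finset.mem_range.1 hs'))
    refine h2.trans ?_
    rw [Finset.sum_const, nsmul_eq_mul, Finset.card_range, ← hNη]
    have : (m : ℝ) ≤ N := by exact_mod_cast hm
    gcongr
  by_cases hex : ∃ s0, s0 < N ∧ Big B η α (nd N v s0)
  · have hs0 := (Nat.find_spec hex).1
    have hbig := (Nat.find_spec hex).2
    have hmin : ∀ s < Nat.find hex, ¬ Big B η α (nd N v s) := by
      intro s hs h
      exact Nat.find_min hex hs ⟨by omega, h⟩
    generalize Nat.find hex = s0 at hs0 hbig hmin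
    have hsplit : ∑ s ∈ Finset.range N, blk B α (ev p (nd N v s)) =
        ∑ s ∈ Finset.range s0, blk B α (ev p (nd N v s)) +
          ∑ s ∈ Finset.Ico s0 N, blk B α (ev p (nd N v s)) := by
      rw [Finset.range_eq_Ico, Finset.range_eq_Ico, Finset.sum_Ico_consecutive _ (Nat.zero_le _) hs0.le]
    rw [hsplit]
    refine (norm_add_le _ _).trans ?_
    have h1 := hsmall s0 hs0.le hmin
    have h2 : ‖∑ s ∈ Finset.Ico s0 N, blk B α (ev p (nd N v s))‖ ≤ Real.sqrt (N * (b ^ 2 + 1)) := by
      apply Real.le_sqrt_of_sq_le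
      rw [← real_inner_self_eq_norm_sq, sum_inner]
      have h3 : ∀ s ∈ Finset.Ico s0 N,
          ⟪blk B α (ev p (nd N v s)), ∑ i ∈ Finset.Ico s0 N, blk B α (ev p (nd N v i))⟫ ≤ b ^ 2 + 1 := by
        intro s hs
        rw [inner_sum]
        have h4 : ∀ i ∈ Finset.Ico s0 N, ⟪blk B α (ev p (nd N v s)), blk B α (ev p (nd N v i))⟫ ≤
            (if i = s then b ^ 2 else 0) + η := by
          intro i hi
          rw [Finset.mem_Ico] at hs hi
          rcases lt_trichotomy i s with h | h | h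
          · have := hpair s0 i s (by omega) h hs.2 hbig
            rw [if_neg h.ne, zero_add]
            exact (le_abs_self _).trans this
          · subst h
            rw [if_pos rfl, real_inner_self_eq_norm_sq]
            have := norm_blk_ev B hP hb α (nd N v i)
            have h5 : ‖blk B α (ev p (nd N v i))‖ ^ 2 ≤ b ^ 2 :=
              pow_le_pow_left₀ (norm_nonneg _) this 2
            linarith
          · have := hpair s0 s i (by omega) h hi.2 hbig
            rw [if_neg h.ne', zero_add, real_inner_comm]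
            exact (le_abs_self _).trans this
        refine (Finset.sum_le_sum h4).trans ?_
        rw [Finset.sum_add_distrib, Finset.sum_ite_eq' , if_pos hs, Finset.sum_const, nsmul_eq_mul,
          Nat.card_Ico]
        have h5 : ((N - s0 : ℕ) : ℝ) * η ≤ 1 := by
          rw [← hNη]
          have : ((N - s0 : ℕ) : ℝ) ≤ N := by exact_mod_cast Nat.sub_le _ _
          gcongr
        linarith
      refine (Finset.sum_le_sum h3).trans ?_
      rw [Finset.sum_const, nsmul_eq_mul, Nat.card_Ico]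
      have : ((N - s0 : ℕ) : ℝ) ≤ N := by exact_mod_cast Nat.sub_le _ _
      gcongr
    linarith
  · push Not at hex
    have := hsmall N le_rfl (fun s hs => hex s hs)
    linarith

end

end Q261.FS
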