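import Pool.Agent.Q261.FS.Defs

/-!
The spaces of the problem, with their norms, in the form used in the final statement.
-/

namespace Q261.FS

open scoped ENNReal Topology
open Filter

section

variable {ι : Type} (p : ℝ≥0∞) (E : ι → Type) [∀ i, NormedAddCommGroup (E i)]

/-- the `ℓ_p`-sum of a family of normed spaces (`p = ∞` allowed); its norm is Mathlib's -/
def LpS : Type := lp E p

noncomputable instance [Fact (1 ≤ p)] : NormedAddCommGroup (LpS p E) :=
  lp.normedAddCommGroup (E := E) (p := p)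

noncomputable instance [∀ i, NormedSpace ℝ (E i)] [Fact (1 ≤ p)] : NormedSpace ℝ (LpS p E) :=
  (inferInstance : NormedSpace ℝ (lp E p))

/-- coordinates -/
def LpS.coord {ι : Type} {p : ℝ≥0∞} {E : ι → Type} [∀ i, NormedAddCommGroup (E i)] :
    LpS p E → ∀ i, E i := fun (x : lp E p) i => x i

/-- the families whose norms tend to zero (for the index set `ℕ` along the cofinite filter, which
is convergence to zero) -/
def c0Set : Set (LpS ∞ E) := {x | Tendsto (fun i => ‖x.coord i‖) cofinite (𝓝 0)}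

variable [∀ i, NormedSpace ℝ (E i)]

lemma c0Set_zero : 0 ∈ c0Set E := (c0Sum E).zero_mem

variable {E} in
lemma c0Set_add {a b : LpS ∞ E} (ha : a ∈ c0Set E) (hb : b ∈ c0Set E) : a + b ∈ c0Set E :=
  (c0Sum E).add_mem ha hb

variable {E} in
lemma c0Set_smul (c : ℝ) {a : LpS ∞ E} (ha : a ∈ c0Set E) : c • a ∈ c0Set E := by
  have h : (c • (show lp E ∞ from a) : lp E ∞) ∈ c0Sum E := (c0Sum E).smul_mem c ha
  exact h

/-- the `c₀`-sum as a subspace of the `ℓ_∞`-sum -/
def C0S : Submodule ℝ (LpS ∞ E) where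
  carrier := c0Set E
  zero_mem' := c0Set_zero E
  add_mem' := c0Set_add
  smul_mem' := fun c _ h => c0Set_smul c h

/-- the `c₀`-sum as a normed space -/
def C0T : Type := C0S E

noncomputable instance : NormedAddCommGroup (C0T E) := (inferInstance : NormedAddCommGroup (C0S E))

noncomputable instance : NormedSpace ℝ (C0T E) := (inferInstance : NormedSpace ℝ (C0S E))

/-- coordinates -/
def C0T.coord {ι : Type} {E : ι → Type} [∀ i, NormedAddCommGroup (E i)]
    [∀ i, NormedSpace ℝ (E i)] : C0T E → ∀ i, E i := fun (x : C0S E) => LpS.coord x.1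

end

/-- `ℓ_2^{n+1}` -/
def E2 (n : ℕ) : Type := EuclideanSpace ℝ (Fin (n + 1))

noncomputable instance (n : ℕ) : NormedAddCommGroup (E2 n) :=
  (inferInstance : NormedAddCommGroup (EuclideanSpace ℝ (Fin (n + 1))))

noncomputable instance (n : ℕ) : NormedSpace ℝ (E2 n) :=
  (inferInstance : NormedSpace ℝ (EuclideanSpace ℝ (Fin (n + 1))))

/-- `ℓ_∞^{k_n}` -/
def Einf (k : ℕ → ℕ) (n : ℕ) : Type := Fin (k n) → ℝ

noncomputable instance (k : ℕ → ℕ) (n : ℕ) : NormedAddCommGroup (Einf k n) :=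
  (inferInstance : NormedAddCommGroup (Fin (k n) → ℝ))

noncomputable instance (k : ℕ → ℕ) (n : ℕ) : NormedSpace ℝ (Einf k n) :=
  (inferInstance : NormedSpace ℝ (Fin (k n) → ℝ))

/-- the real line as a constant family -/
def Rl (_ : ℕ) : Type := ℝ

noncomputable instance (n : ℕ) : NormedAddCommGroup (Rl n) := (inferInstance : NormedAddCommGroup ℝ)

noncomputable instance (n : ℕ) : NormedSpace ℝ (Rl n) := (inferInstance : NormedSpace ℝ ℝ)

/-- `ℓ_p` over `ℕ`, real scalars -/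
def Ellp (p : ℝ≥0∞) : Type := LpS p Rl

noncomputable instance (p : ℝ≥0∞) [Fact (1 ≤ p)] : NormedAddCommGroup (Ellp p) :=
  (inferInstance : NormedAddCommGroup (LpS p Rl))

noncomputable instance (p : ℝ≥0∞) [Fact (1 ≤ p)] : NormedSpace ℝ (Ellp p) :=
  (inferInstance : NormedSpace ℝ (LpS p Rl))

/-- `c₀`, real scalars -/
def C0 : Type := C0T Rl

noncomputable instance : NormedAddCommGroup C0 := (inferInstance : NormedAddCommGroup (C0T Rl))

noncomputable instance : NormedSpace ℝ C0 := (inferInstance : NormedSpace ℝ (C0T Rl))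

/-- the domain `(⊕ ℓ_2^n)_{ℓ_p}` of `K` -/
def DomK (p : ℝ≥0∞) : Type := LpS p E2

noncomputable instance (p : ℝ≥0∞) [Fact (1 ≤ p)] : NormedAddCommGroup (DomK p) :=
  (inferInstance : NormedAddCommGroup (LpS p E2))

noncomputable instance (p : ℝ≥0∞) [Fact (1 ≤ p)] : NormedSpace ℝ (DomK p) :=
  (inferInstance : NormedSpace ℝ (LpS p E2))

/-- the codomain `(⊕ ℓ_∞^{k_n})_{c₀}` of `K` -/
def CodK (k : ℕ → ℕ) : Type := C0T (Einf k)

noncomputable instance (k : ℕ → ℕ) : NormedAddCommGroup (CodK k) :=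
  (inferInstance : NormedAddCommGroup (C0T (Einf k)))

noncomputable instance (k : ℕ → ℕ) : NormedSpace ℝ (CodK k) :=
  (inferInstance : NormedSpace ℝ (C0T (Einf k)))

/-- coordinates of an element of the domain of `K` -/
noncomputable def DomK.coord {p : ℝ≥0∞} : DomK p → ∀ n : ℕ, E2 n := fun x => LpS.coord x

/-- coordinates of an element of the codomain of `K` -/
noncomputable def CodK.coord {k : ℕ → ℕ} : CodK k → ∀ n : ℕ, Einf k n := fun x => C0T.coord x

/-- `K` is an admissible diagonal operator: `K = diag (K_n)` with linear maps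
`K_n : ℓ_2^n → ℓ_∞^{k_n}`, `‖x‖ ≤ ‖K_n x‖ ≤ 2 ‖x‖`. -/
def IsDiag {p : ℝ≥0∞} [Fact (1 ≤ p)] {k : ℕ → ℕ} (K : DomK p →L[ℝ] CodK k) : Prop :=
  ∃ Kn : ∀ n : ℕ, E2 n →ₗ[ℝ] Einf k n,
    (∀ n x, ‖x‖ ≤ ‖Kn n x‖ ∧ ‖Kn n x‖ ≤ 2 * ‖x‖) ∧
    ∀ (x : DomK p) (n : ℕ), (K x).coord n = Kn n (x.coord n)

end Q261.FS
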